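import Pool.Agent.Work.MP_030dc9_lc.Defs

/-! MP_030dc9_lc: assembly. -/

set_option autoImplicit false

open scoped ENNReal

namespace Pool.Agent.PR

variable (hCmp : StCmp) (hSumd : StSumd) (hDp : StDp) (hLim : StLim) (hCong : StCong)
  (hDil : StDil) (hSch : StSch) (hExt : StExt)

/-- scaling of the weights -/
theorem Zv_scale (k W q : ℕ) (w : ℕ → ℕ → ℕ) :
    Zv k W (fun s t => q * w s t) = q ^ k * Zv k W w := by
  unfold Zv
  rw [Finset.mul_sum]
  refine Finset.sum_congr rfl fun p _ => ?_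
  rw [Finset.prod_mul_distrib, Finset.prod_const, Finset.card_univ, Fintype.card_fin]

include hCmp hSumd hLim hSch in
/-- the union bound: some instance has no short schedule -/
theorem exists_hard (C S k M : ℕ) (α : ℕ → ℕ → ℕ) (hC : 0 < C) (hM : 0 < M) (hk : 0 < k)
    (hα : ∀ s t, α s t < M)
    (hrow : ∀ s, s < k → ∑ t ∈ Finset.range (C + S), α s t = M * C)
    (hnum : (Zv k (C + S) fun s t => M - α s t) ^ C * (C.factorial) ^ k * M ^ (k * S) <
      C ^ (C * k) * ∏ s ∈ Finset.range k, ∏ t ∈ Finset.range (C + S), (M - α s t)) :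
    ∃ m, 0 < m ∧ ∃ ω : Fin k → Reg m C, ∀ T, T < k + (C + S) → IsEmpty (Sched (inst m C k ω) T) := by
  classical
  obtain ⟨q, hq, hlim⟩ := hLim C S k M _ α hC hM hα hrow hnum
  refine ⟨q * M, Nat.mul_pos hq hM, ?_⟩
  have hl := hlim (q * M) rfl
  clear hlim
  set m := q * M with hm
  set a : ℕ → ℕ → ℕ := fun s t => q * α s t with ha
  have ham : ∀ s t, a s t < m := fun s t => Nat.mul_lt_mul_of_pos_left (hα s t) hq
  by_contra hcon
  push Not at hcon
  -- for every ω there are delays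
  have hd : ∀ ω : Fin k → Reg m C, ∃ d : Ps m C → Pth k (C + S),
      ∀ s (hs : s < k), Ok (pos k ω id (s + 1)) fun j => (d j).1 ⟨s, hs⟩ := by
    intro ω
    obtain ⟨T, hT, hne⟩ := hcon ω
    exact hSch m C k (C + S) T ω (by omega) hT hne
  let A : ℕ := ∏ s ∈ Finset.range k, (∏ t ∈ Finset.range (C + S), (m - a s t) ^ a s t) ^ m
  let B : ℕ := ∏ s ∈ Finset.range k,
      ((C.factorial) ^ m * ∏ t ∈ Finset.range (C + S), m.descFactorial (a s t)) ^ m
  -- the number of ω for given d
  let G : (Ps m C → Pth k (C + S)) → Type := fun d =>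
    {ω : Fin k → Reg m C // ∀ s (hs : s < k), Ok (pos k ω id (s + 1)) fun j => (d j).1 ⟨s, hs⟩}
  have hG : ∀ d, Nat.card (G d) * A ≤ B * ∏ s : Fin k, ∏ j, (m - a s ((d j).1 s)) := by
    intro d
    let d' : ℕ → Ps m C → ℕ := fun s j => if hs : s < k then (d j).1 ⟨s, hs⟩ else 0
    have h := hCmp m C (C + S) k a (Ps m C) id d' Function.bijective_id ham (by
      intro s j
      by_cases hs : s < k
      · simp only [d', hs, dite_true]; exact ((d j).1 ⟨s, hs⟩).2
      · simp only [d', hs, dite_false]; omega)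
    have e1 : Nat.card (G d) = Nat.card {ω : Fin k → Reg m C //
        ∀ s, s < k → Ok (pos k ω id (s + 1)) (d' s)} := by
      refine Nat.card_congr (Equiv.subtypeEquivRight fun ω => ?_)
      refine forall_congr' fun s => forall_congr' fun hs => ?_
      have : d' s = fun j => (((d j).1 ⟨s, hs⟩ : Fin (C + S)) : ℕ) := by
        funext j; simp only [d', hs, dite_true]
      rw [this]
    have e2 : ∏ s ∈ Finset.range k, ∏ j, (m - a s (d' s j)) =
        ∏ s : Fin k, ∏ j, (m - a s ((d j).1 s)) := by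
      rw [Finset.prod_range]
      refine Finset.prod_congr rfl fun s _ => Finset.prod_congr rfl fun j _ => ?_
      simp only [d', s.2, dite_true, Fin.eta]
    rw [e1, ← e2]
    exact h
  -- total number
  have hcard : Nat.card (Fin k → Reg m C) = ((m * C).factorial) ^ (m * k) := by
    rw [Nat.card_eq_fintype_card]
    simp only [Fintype.card_fun, Fintype.card_perm, Fintype.card_prod, Fintype.card_fin]
    rw [← pow_mul]
  have htot : Nat.card (Fin k → Reg m C) ≤ ∑ d, Nat.card (G d) := by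
    have hsurj : Function.Surjective (fun x : (Σ d, G d) => x.2.1) := by
      intro ω
      obtain ⟨d, h⟩ := hd ω
      exact ⟨⟨d, ⟨ω, h⟩⟩, rfl⟩
    calc Nat.card (Fin k → Reg m C) ≤ Nat.card (Σ d, G d) :=
          Nat.card_le_card_of_surjective _ hsurj
      _ = ∑ d, Nat.card (G d) := Nat.card_sigma
  have hsum : ∑ d : Ps m C → Pth k (C + S), ∏ s : Fin k, ∏ j, (m - a s ((d j).1 s)) =
      (q ^ k * Zv k (C + S) fun s t => M - α s t) ^ (m * (m * C)) := by
    have h := hSumd k (C + S) (fun s t => m - a s t) (Ps m C)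
    have e : (fun s t => m - a s t) = fun s t => q * (M - α s t) := by
      funext s t; simp only [hm, ha, Nat.mul_sub]
    have ec : Fintype.card (Ps m C) = m * (m * C) := by simp
    rw [ec] at h
    rw [h, e, Zv_scale]
  have hfin : ((m * C).factorial) ^ (m * k) * A ≤
      B * (q ^ k * Zv k (C + S) fun s t => M - α s t) ^ (m * (m * C)) := by
    calc ((m * C).factorial) ^ (m * k) * A ≤ (∑ d, Nat.card (G d)) * A := by
          rw [← hcard]; exact Nat.mul_le_mul_right _ htot
      _ = ∑ d, Nat.card (G d) * A := by rw [Finset.sum_mul]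
      _ ≤ ∑ d : Ps m C → Pth k (C + S), B * ∏ s : Fin k, ∏ j, (m - a s ((d j).1 s)) :=
          Finset.sum_le_sum fun d _ => hG d
      _ = _ := by rw [← Finset.mul_sum, hsum]
  exact absurd hfin (not_le.2 hl)

include hCmp hSumd hLim hCong hDil hSch hExt in
/-- the lower bound for `c*` -/
theorem lower (C S k M : ℕ) (α : ℕ → ℕ → ℕ) (hC : 0 < C) (hM : 0 < M) (hk : 0 < k)
    (hα : ∀ s t, α s t < M)
    (hrow : ∀ s, s < k → ∑ t ∈ Finset.range (C + S), α s t = M * C)
    (hnum : (Zv k (C + S) fun s t => M - α s t) ^ C * (C.factorial) ^ k * M ^ (k * S) <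
      C ^ (C * k) * ∏ s ∈ Finset.range k, ∏ t ∈ Finset.range (C + S), (M - α s t)) :
    ∃ I : Inst, Nonempty I.P ∧ I.cong = C ∧ I.dil = k ∧ k + (C + S) ≤ I.T := by
  obtain ⟨m, hm, ω, h⟩ := exists_hard hCmp hSumd hLim hSch C S k M α hC hM hk hα hrow hnum
  refine ⟨inst m C k ω, ⟨(⟨0, hm⟩, (⟨0, hm⟩, ⟨0, hC⟩))⟩, hCong m C k ω hm hC hk,
    hDil m C k ω hm hC, ?_⟩
  obtain ⟨T0, hT0⟩ := hExt (inst m C k ω)
  by_contra hlt
  have hmem : (inst m C k ω).T ∈ {T | Nonempty (Sched (inst m C k ω) T)} :=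
    Nat.sInf_mem ⟨T0, hT0⟩
  obtain ⟨s⟩ := hmem
  exact (h _ (not_le.1 hlt)).false s

end Pool.Agent.PR
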