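import Pool.Agent.Work.MP_030dc9_lc.Defs
import Pool.Agent.Work.MP_030dc9_lc.CertData

/-! MP_030dc9_lc: the certificate (C = 120, D = 216, W = 168), checked by the kernel. -/

set_option autoImplicit false

namespace Pool.Agent.PR.Cert

/-- the first `n` digits in base `2 ^ b` -/
def digs (b : ℕ) : ℕ → ℕ → List ℕ
  | 0, _ => []
  | n + 1, v => (v % 2 ^ b) :: digs b n (v / 2 ^ b)

/-- one step of the row recursion -/
def scan : ℕ → List ℕ → List ℕ → List ℕ
  | acc, p :: ps, b :: bs => ((acc + p) * b) :: scan (acc + p) ps bs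
  | _, _, _ => []

/-- the row recursion -/
def dp : List ℕ → List (List ℕ) → List ℕ
  | f, [] => f
  | f, r :: rs => dp (scan 0 f r) rs

def sm (l : List ℕ) : ℕ := l.foldr (· + ·) 0
def pr (l : List ℕ) : ℕ := l.foldr (· * ·) 1

def ra : List ℕ := digs 256 168 r0
def mids : List (List ℕ) := rs.map fun v => (digs 16 168 v).map (· * 2 ^ 240)
def rest : List (List ℕ) := mids ++ ((mids.reverse.map List.reverse) ++ [ra.reverse])
def L : List (List ℕ) := ra :: rest

theorem chkL : L.length = 216 := by decide +kernel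

theorem chkR : (L.all fun r => (r.length == 168) && (sm r == 48 * 2 ^ 252) &&
    r.all fun x => (Nat.ble 1 x) && (Nat.ble x (2 ^ 252))) = true := by decide +kernel

theorem chkZ : Nat.blt ((sm (dp ra rest)) ^ 120 * (Nat.factorial 120) ^ 216 * (2 ^ 252) ^ (216 * 48))
    (120 ^ (120 * 216) * pr (L.map pr)) = true := by decide +kernel

end Pool.Agent.PR.Cert
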