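import Pool.Agent.Work.MP_030dc9_lc.Cert

/-! MP_030dc9_lc: from the kernel checks to the hypotheses of the main theorem. -/

set_option autoImplicit false

namespace Pool.Agent.PR.Cert

/-- the entry of a list of rows -/
def ent (R : List (List ℕ)) (s t : ℕ) : ℕ := (R.getD s []).getD t 1

theorem map_ent {R : List (List ℕ)} {W s : ℕ} (hs : s < R.length) (hw : R[s].length = W) :
    (List.range W).map (ent R s) = R[s] := by
  apply List.ext_getElem
  · simp [hw]
  · intro i h1 h2
    have hs' : R.getD s [] = R[s] := by simp [List.getD_eq_getElem?_getD, hs]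
    simp only [List.getElem_map, List.getElem_range, ent, hs']
    simp [List.getD_eq_getElem?_getD, h2]

theorem sm_eq (l : List ℕ) : sm l = l.sum := rfl

theorem pr_eq (l : List ℕ) : pr l = l.prod := rfl

theorem sum_range_map (f : ℕ → ℕ) (n : ℕ) :
    ((List.range n).map f).sum = ∑ t ∈ Finset.range n, f t := by
  induction n with
  | zero => rfl
  | succ n ih => rw [List.range_succ, List.map_append, List.sum_append, ih,
      Finset.sum_range_succ]; simp

theorem prod_range_map (f : ℕ → ℕ) (n : ℕ) :
    ((List.range n).map f).prod = ∏ t ∈ Finset.range n, f t := by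
  induction n with
  | zero => rfl
  | succ n ih => rw [List.range_succ, List.map_append, List.prod_append, ih,
      Finset.prod_range_succ]; simp

theorem scan_range' (f g : ℕ → ℕ) : ∀ (n i acc : ℕ), acc = ∑ t ∈ Finset.range i, f t →
    scan acc ((List.range' i n).map f) ((List.range' i n).map g) =
      (List.range' i n).map fun t => g t * ∑ t' ∈ Finset.range (t + 1), f t'
  | 0, i, acc, h => rfl
  | n + 1, i, acc, h => by
    have h1 : acc + f i = ∑ t ∈ Finset.range (i + 1), f t := by rw [Finset.sum_range_succ, h]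
    rw [List.range'_succ, List.map_cons, List.map_cons, List.map_cons, scan,
      scan_range' f g n (i + 1) (acc + f i) h1, h1, mul_comm]

theorem scan_range (f g : ℕ → ℕ) (n : ℕ) :
    scan 0 ((List.range n).map f) ((List.range n).map g) =
      (List.range n).map fun t => g t * ∑ t' ∈ Finset.range (t + 1), f t' := by
  rw [List.range_eq_range']
  exact scan_range' f g n 0 0 (by simp)

theorem dp_eq (w : ℕ → ℕ → ℕ) (W : ℕ) : ∀ (rs : List (List ℕ)) (s : ℕ),
    (∀ i (hi : i < rs.length), rs[i] = (List.range W).map (w (s + 1 + i))) →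
    dp ((List.range W).map (row w s)) rs = (List.range W).map (row w (s + rs.length))
  | [], s, _ => rfl
  | r :: rs, s, h => by
    have h0 : r = (List.range W).map (w (s + 1)) := h 0 (by simp)
    have h1 : scan 0 ((List.range W).map (row w s)) r = (List.range W).map (row w (s + 1)) := by
      rw [h0, scan_range]; rfl
    rw [dp, h1, dp_eq w W rs (s + 1) (fun i hi => by
      have := h (i + 1) (by simpa using hi)
      rw [List.getElem_cons_succ] at this
      rw [this]; congr 2; omega)]
    simp only [List.length_cons]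
    congr 2; omega

theorem L_rows (s : ℕ) (hs : s < L.length) : L[s].length = 168 ∧ L[s].sum = 48 * 2 ^ 252 ∧
    ∀ x ∈ L[s], 1 ≤ x ∧ x ≤ 2 ^ 252 := by
  have h := List.all_eq_true.1 chkR L[s] (List.getElem_mem hs)
  simp only [Bool.and_eq_true, beq_iff_eq, List.all_eq_true] at h
  obtain ⟨⟨h1, h2⟩, h3⟩ := h
  exact ⟨h1, by rw [← sm_eq]; exact h2, fun x hx =>
    ⟨Nat.le_of_ble_eq_true (h3 x hx).1, Nat.le_of_ble_eq_true (h3 x hx).2⟩⟩

/-- the entries -/
theorem ent_pos (s t : ℕ) : 1 ≤ ent L s t := by
  unfold ent
  by_cases hs : s < L.length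
  · have hs' : L.getD s [] = L[s] := by simp [List.getD_eq_getElem?_getD, hs]
    rw [hs']
    by_cases ht : t < L[s].length
    · have : L[s].getD t 1 = L[s][t] := by simp [List.getD_eq_getElem?_getD, ht]
      rw [this]
      exact ((L_rows s hs).2.2 _ (List.getElem_mem ht)).1
    · have : L[s].getD t 1 = 1 := by simp [List.getD_eq_getElem?_getD, not_lt.1 ht]
      rw [this]
  · have hs' : L.getD s [] = [] := by simp [List.getD_eq_getElem?_getD, not_lt.1 hs]
    rw [hs']; simp

theorem ent_le (s t : ℕ) : ent L s t ≤ 2 ^ 252 := by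
  unfold ent
  by_cases hs : s < L.length
  · have hs' : L.getD s [] = L[s] := by simp [List.getD_eq_getElem?_getD, hs]
    rw [hs']
    by_cases ht : t < L[s].length
    · have : L[s].getD t 1 = L[s][t] := by simp [List.getD_eq_getElem?_getD, ht]
      rw [this]
      exact ((L_rows s hs).2.2 _ (List.getElem_mem ht)).2
    · have : L[s].getD t 1 = 1 := by simp [List.getD_eq_getElem?_getD, not_lt.1 ht]
      rw [this]; exact Nat.one_le_two_pow
  · have hs' : L.getD s [] = [] := by simp [List.getD_eq_getElem?_getD, not_lt.1 hs]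
    rw [hs']; simp

theorem row_map (s : ℕ) (hs : s < 216) :
    (List.range 168).map (ent L s) = L[s]'(by rw [chkL]; exact hs) :=
  map_ent (by rw [chkL]; exact hs) (L_rows s _).1

/-- the reference profile -/
def al (s t : ℕ) : ℕ := 2 ^ 252 - ent L s t

theorem sub_al (s t : ℕ) : 2 ^ 252 - al s t = ent L s t := by
  unfold al; exact Nat.sub_sub_self (ent_le s t)

theorem al_lt (s t : ℕ) : al s t < 2 ^ 252 := by
  unfold al
  have h1 := ent_pos s t
  have h2 : 0 < 2 ^ 252 := Nat.two_pow_pos _
  exact Nat.sub_lt h2 h1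

theorem al_row (s : ℕ) (hs : s < 216) :
    ∑ t ∈ Finset.range 168, al s t = 2 ^ 252 * 120 := by
  have hs' : s < L.length := by rw [chkL]; exact hs
  have h1 : ∑ t ∈ Finset.range 168, ent L s t = 48 * 2 ^ 252 := by
    rw [← sum_range_map, row_map s hs]
    exact (L_rows s hs').2.1
  have h2 : ∑ t ∈ Finset.range 168, al s t + ∑ t ∈ Finset.range 168, ent L s t =
      168 * 2 ^ 252 := by
    rw [← Finset.sum_add_distrib]
    have : ∀ t ∈ Finset.range 168, al s t + ent L s t = 2 ^ 252 := fun t _ =>
      Nat.sub_add_cancel (ent_le s t)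
    rw [Finset.sum_congr rfl this, Finset.sum_const, Finset.card_range, smul_eq_mul]
  rw [h1] at h2
  omega

theorem Z_eq (hDp : StDp) : Zv 216 168 (fun s t => 2 ^ 252 - al s t) = sm (dp ra rest) := by
  have hw : (fun s t => 2 ^ 252 - al s t) = ent L := by
    funext s t; exact sub_al s t
  rw [hw, hDp 215 168, ← sum_range_map, sm_eq]
  have h0 : (List.range 168).map (row (ent L) 0) = ra := row_map 0 (by norm_num)
  have hl : rest.length = 215 := by
    have := chkL
    unfold L at this
    simpa using this
  have h := dp_eq (ent L) 168 rest 0 (fun i hi => by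
    have := row_map (0 + 1 + i) (by omega)
    rw [this]
    unfold L
    simp [Nat.add_comm 1 i])
  rw [h0, hl] at h
  rw [h]

theorem map_pr (R : List (List ℕ)) (n : ℕ) (h : R.length = n) :
    (List.range n).map (fun s => pr (R.getD s [])) = R.map pr := by
  apply List.ext_getElem
  · simp [h]
  · intro i h1 h2
    have h3 : i < R.length := by simpa using h2
    simp [List.getD_eq_getElem?_getD, h3]

theorem P_eq : ∏ s ∈ Finset.range 216, ∏ t ∈ Finset.range 168, (2 ^ 252 - al s t) =
    pr (L.map pr) := by
  have h1 : ∀ s ∈ Finset.range 216, ∏ t ∈ Finset.range 168, (2 ^ 252 - al s t) =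
      pr (L.getD s []) := by
    intro s hs
    have hs2 := Finset.mem_range.1 hs
    have hs' : s < L.length := by rw [chkL]; exact hs2
    have e : L.getD s [] = L[s] := by simp [List.getD_eq_getElem?_getD, hs']
    rw [e, pr_eq, ← row_map s hs2, prod_range_map]
    exact Finset.prod_congr rfl fun t _ => sub_al s t
  refine (Finset.prod_congr rfl h1).trans ?_
  rw [← prod_range_map, map_pr L 216 chkL, pr_eq]

theorem lt_of_blt {a b : ℕ} (h : Nat.blt a b = true) : a < b := Nat.le_of_ble_eq_true h

theorem chkZ' : sm (dp ra rest) ^ 120 * (Nat.factorial 120) ^ 216 * (2 ^ 252) ^ (216 * 48) <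
    120 ^ (120 * 216) * pr (L.map pr) :=
  lt_of_blt chkZ

theorem num (hDp : StDp) :
    (Zv 216 168 fun s t => 2 ^ 252 - al s t) ^ 120 * (Nat.factorial 120) ^ 216 *
      (2 ^ 252) ^ (216 * 48) <
      120 ^ (120 * 216) * ∏ s ∈ Finset.range 216, ∏ t ∈ Finset.range 168,
        (2 ^ 252 - al s t) := by
  have h := chkZ'
  generalize hz : sm (dp ra rest) = z at h
  generalize hp : pr (L.map pr) = p at h
  have h1 := Z_eq hDp
  have h2 := P_eq
  rw [hz] at h1
  rw [hp] at h2
  rw [h1, h2]
  exact h

end Pool.Agent.PR.Cert
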