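import Mathlib

/-! MP_030dc9_lc: offline packet routing, definitions. -/

set_option autoImplicit false

open scoped ENNReal

namespace Pool.Agent.PR

/-- An instance: a finite directed graph (node set `V`, edge relation `E`) and a finite collection
`P` of packets; packet `i` has to traverse the simple path `node i 0, ..., node i (len i)`. -/
structure Inst where
  V : Type
  [fV : Fintype V]
  E : V → V → Prop
  P : Type
  [fP : Fintype P]
  len : P → ℕ
  node : P → ℕ → V
  adj : ∀ i t, t < len i → E (node i t) (node i (t + 1))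
  simple : ∀ i s t, s ≤ len i → t ≤ len i → node i s = node i t → s = t

attribute [instance] Inst.fV Inst.fP

/-- packet `i` uses the edge `e` -/
def Inst.Uses (I : Inst) (i : I.P) (e : I.V × I.V) : Prop :=
  ∃ t, t < I.len i ∧ I.node i t = e.1 ∧ I.node i (t + 1) = e.2

/-- the congestion: the largest number of paths that use one edge -/
noncomputable def Inst.cong (I : Inst) : ℕ := ⨆ e : I.V × I.V, Nat.card {i : I.P // I.Uses i e}

/-- the dilation: the largest number of edges on a path -/
noncomputable def Inst.dil (I : Inst) : ℕ := ⨆ i : I.P, I.len i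

/-- A (store-and-forward) schedule with makespan at most `T`: packet `i` crosses the `t`-th edge of
its path (`t < len i`) in the time step `at' i t`. -/
structure Sched (I : Inst) (T : ℕ) where
  at' : I.P → ℕ → ℕ
  pos : ∀ i t, t < I.len i → 1 ≤ at' i t
  le : ∀ i t, t < I.len i → at' i t ≤ T
  mono : ∀ i t, t + 1 < I.len i → at' i t < at' i (t + 1)
  cap : ∀ i j s t, s < I.len i → t < I.len j → I.node i s = I.node j t →
    I.node i (s + 1) = I.node j (t + 1) → at' i s = at' j t → i = j

/-- the least number of steps -/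
noncomputable def Inst.T (I : Inst) : ℕ := sInf {T | Nonempty (Sched I T)}

/-- `c* = sup T / (C + D)` over all nonempty path collections with `C + D > 0` -/
noncomputable def cStar : ℝ≥0∞ :=
  ⨆ (I : Inst) (_ : Nonempty I.P) (_ : 0 < I.cong + I.dil), (I.T : ℝ≥0∞) / (I.cong + I.dil : ℕ)

/-! ### the leveled instances -/

/-- positions inside a node -/
abbrev Q (m C : ℕ) : Type := Fin m × Fin C

/-- positions at a level: `(u, (v, c))` is the `c`-th packet that crosses the edge `u → v` -/
abbrev Ps (m C : ℕ) : Type := Fin m × (Fin m × Fin C)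

/-- one regrouping: a permutation of the positions of every node -/
abbrev Reg (m C : ℕ) : Type := Fin m → Equiv.Perm (Q m C)

/-- the packet at position `(u, (v, c))` arrives at the node `v`; its next position -/
def step {m C : ℕ} (σ : Reg m C) (p : Ps m C) : Ps m C := (p.2.1, σ p.2.1 (p.1, p.2.2))

/-- the positions of the packets at the level `s`; packets are named by `J`, `g` gives the
positions at the level `0` -/
def pos {m C : ℕ} {J : Type} : (k : ℕ) → (Fin k → Reg m C) → (J → Ps m C) → ℕ → J → Ps m C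
  | _, _, g, 0 => g
  | 0, _, g, _ + 1 => g
  | k + 1, ω, g, s + 1 => pos k (Fin.tail ω) (step (ω 0) ∘ g) s

/-- the delays `y` are different for packets on the same edge -/
def Ok {m C : ℕ} {J : Type} (g : J → Ps m C) (y : J → ℕ) : Prop :=
  ∀ j j', (g j).1 = (g j').1 → (g j).2.1 = (g j').2.1 → y j = y j' → j = j'

/-- the leveled instance of the regroupings `ω`: nodes `(level, node)`, levels `0, ..., k` -/
def inst (m C k : ℕ) (ω : Fin k → Reg m C) : Inst where
  V := Fin (k + 1) × Fin m
  E x y := (x.1 : ℕ) + 1 = y.1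
  P := Ps m C
  len _ := k
  node j t := (⟨min t k, by omega⟩, (pos k ω id (min t k) j).2.1)
  adj := by
    intro j t ht
    simp only
    omega
  simple := by
    intro j s t hs ht h
    simp only [Prod.mk.injEq, Fin.mk.injEq] at h
    omega

/-! ### statements -/

/-- A1 -/
def StA1 : Prop := ∀ (m C : ℕ) (y : Q m C → ℕ),
  Nat.card {σ : Equiv.Perm (Q m C) // ∀ q q', (σ q).1 = (σ q').1 → y q = y q' → q = q'} ≤
    (C.factorial) ^ m * Nat.card {g : Q m C → Fin m // ∀ q q', g q = g q' → y q = y q' → q = q'}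

/-- A2 -/
def StA2 : Prop := ∀ (m C W : ℕ) (y : Q m C → ℕ), (∀ q, y q < W) →
  Nat.card {g : Q m C → Fin m // ∀ q q', g q = g q' → y q = y q' → q = q'} ≤
    ∏ t ∈ Finset.range W, m.descFactorial (Nat.card {q : Q m C // y q = t})

/-- B: comparison with a reference value `a` -/
def StB : Prop := ∀ m n a : ℕ, a < m →
  m.descFactorial n * (m - a) ^ a ≤ m.descFactorial a * (m - a) ^ n

/-- BLK: the number of good permutations of a node; `a` is a reference profile -/
def StBlk : Prop := ∀ (m C W : ℕ) (a : ℕ → ℕ) (y : Q m C → ℕ), (∀ t, a t < m) → (∀ q, y q < W) →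
  Nat.card {σ : Equiv.Perm (Q m C) // ∀ q q', (σ q).1 = (σ q').1 → y q = y q' → q = q'} *
      ∏ t ∈ Finset.range W, (m - a t) ^ a t ≤
    ((C.factorial) ^ m * ∏ t ∈ Finset.range W, m.descFactorial (a t)) * ∏ q, (m - a (y q))

/-- LEV: the number of good regroupings of one level -/
def StLev : Prop := ∀ (m C W : ℕ) (a : ℕ → ℕ) (J : Type) [Fintype J] (g : J → Ps m C) (y : J → ℕ),
  Function.Bijective g → (∀ t, a t < m) → (∀ j, y j < W) →
  Nat.card {σ : Reg m C // Ok (step σ ∘ g) y} *
      (∏ t ∈ Finset.range W, (m - a t) ^ a t) ^ m ≤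
    ((C.factorial) ^ m * ∏ t ∈ Finset.range W, m.descFactorial (a t)) ^ m * ∏ j, (m - a (y j))

/-- CMP: the number of sequences of regroupings which are good for given delays -/
def StCmp : Prop := ∀ (m C W k : ℕ) (a : ℕ → ℕ → ℕ) (J : Type) [Fintype J] (g : J → Ps m C)
  (d : ℕ → J → ℕ), Function.Bijective g → (∀ s t, a s t < m) → (∀ s j, d s j < W) →
  Nat.card {ω : Fin k → Reg m C // ∀ s, s < k → Ok (pos k ω g (s + 1)) (d s)} *
      ∏ s ∈ Finset.range k, (∏ t ∈ Finset.range W, (m - a s t) ^ a s t) ^ m ≤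
    (∏ s ∈ Finset.range k,
      ((C.factorial) ^ m * ∏ t ∈ Finset.range W, m.descFactorial (a s t)) ^ m) *
      ∏ s ∈ Finset.range k, ∏ j, (m - a s (d s j))

/-- delay functions of one packet -/
abbrev Pth (k W : ℕ) : Type := {p : Fin k → Fin W // Monotone p}

/-- the weighted number of delay functions -/
def Zv (k W : ℕ) (w : ℕ → ℕ → ℕ) : ℕ := ∑ p : Pth k W, ∏ s : Fin k, w s (p.1 s)

/-- SUMD: the sum over all families of delay functions -/
def StSumd : Prop := ∀ (k W : ℕ) (w : ℕ → ℕ → ℕ) (J : Type) [Fintype J] [DecidableEq J],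
  ∑ d : J → Pth k W, ∏ s : Fin k, ∏ j, w s ((d j).1 s) = (Zv k W w) ^ (Fintype.card J)

/-- the row recursion: the weights of the delay functions with last value `t` -/
def row (w : ℕ → ℕ → ℕ) : ℕ → ℕ → ℕ
  | 0, t => w 0 t
  | k + 1, t => w (k + 1) t * ∑ t' ∈ Finset.range (t + 1), row w k t'

/-- DP -/
def StDp : Prop := ∀ (k W : ℕ) (w : ℕ → ℕ → ℕ),
  Zv (k + 1) W w = ∑ t ∈ Finset.range W, row w k t

/-- LIM: the choice of the number of nodes; `M` is the common denominator of the profile -/
def StLim : Prop := ∀ (C S k M Z : ℕ) (α : ℕ → ℕ → ℕ), 0 < C → 0 < M → (∀ s t, α s t < M) →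
  (∀ s, s < k → ∑ t ∈ Finset.range (C + S), α s t = M * C) →
  Z ^ C * (C.factorial) ^ k * M ^ (k * S) <
    C ^ (C * k) * ∏ s ∈ Finset.range k, ∏ t ∈ Finset.range (C + S), (M - α s t) →
  ∃ q, 0 < q ∧ ∀ m, m = q * M →
    (∏ s ∈ Finset.range k,
      ((C.factorial) ^ m * ∏ t ∈ Finset.range (C + S), m.descFactorial (q * α s t)) ^ m) *
        (q ^ k * Z) ^ (m * (m * C)) <
      ((m * C).factorial) ^ (m * k) *
        ∏ s ∈ Finset.range k, (∏ t ∈ Finset.range (C + S), (m - q * α s t) ^ (q * α s t)) ^ m

/-- POSB: the positions form a bijection at every level -/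
def StPosb : Prop := ∀ (m C k : ℕ) (ω : Fin k → Reg m C) (J : Type) (g : J → Ps m C) (s : ℕ),
  Function.Bijective g → Function.Bijective (pos k ω g s)

/-- POSL: the head of an edge is the tail of the next one -/
def StPosl : Prop := ∀ (m C k : ℕ) (ω : Fin k → Reg m C) (J : Type) (g : J → Ps m C) (s : ℕ)
  (j : J), s < k → (pos k ω g (s + 1) j).1 = (pos k ω g s j).2.1

/-- CONG: the congestion of the instance -/
def StCong : Prop := ∀ (m C k : ℕ) (ω : Fin k → Reg m C), 0 < m → 0 < C → 0 < k →
  (inst m C k ω).cong = C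

/-- DIL: the dilation of the instance -/
def StDil : Prop := ∀ (m C k : ℕ) (ω : Fin k → Reg m C), 0 < m → 0 < C →
  (inst m C k ω).dil = k

/-- SCH: a schedule gives delays -/
def StSch : Prop := ∀ (m C k W T : ℕ) (ω : Fin k → Reg m C), 0 < W → T < k + W →
  Nonempty (Sched (inst m C k ω) T) →
  ∃ d : Ps m C → Pth k W, ∀ s (hs : s < k), Ok (pos k ω id (s + 1)) fun j => (d j).1 ⟨s, hs⟩

/-- EXT: every instance has a schedule -/
def StExt : Prop := ∀ I : Inst, ∃ T, Nonempty (Sched I T)

end Pool.Agent.PR
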