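import Pool.Agent.Work.MP_030dc9_lc.Defs

set_option autoImplicit false

namespace Pool.Agent.PR

namespace XA1

/-- good permutations -/
abbrev Sg {m C : ℕ} (y : Q m C → ℕ) : Type :=
  {σ : Equiv.Perm (Q m C) // ∀ q q', (σ q).1 = (σ q').1 → y q = y q' → q = q'}

/-- good labels -/
abbrev Gg {m C : ℕ} (y : Q m C → ℕ) : Type :=
  {g : Q m C → Fin m // ∀ q q', g q = g q' → y q = y q' → q = q'}

/-- the labels -/
def lab {m C : ℕ} {y : Q m C → ℕ} (σ : Sg y) : Gg y := ⟨fun q => (σ.1 q).1, σ.2⟩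

/-- a reference permutation for given labels -/
noncomputable def ref {m C : ℕ} {y : Q m C → ℕ} (g : Set.range (lab (y := y))) : Sg y :=
  g.2.choose

theorem lab_ref {m C : ℕ} {y : Q m C → ℕ} (g : Set.range (lab (y := y))) : lab (ref g) = g.1 :=
  g.2.choose_spec

/-- the reference permutation of `σ` -/
noncomputable def rf {m C : ℕ} {y : Q m C → ℕ} (σ : Sg y) : Sg y := ref ⟨lab σ, σ, rfl⟩

theorem rf_lab {m C : ℕ} {y : Q m C → ℕ} (σ : Sg y) (q : Q m C) :
    ((rf σ).1 q).1 = (σ.1 q).1 := by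
  have h := lab_ref (y := y) ⟨lab σ, σ, rfl⟩
  exact congrFun (congrArg Subtype.val h) q

theorem rf_eq {m C : ℕ} {y : Q m C → ℕ} {σ σ' : Sg y} (h : lab σ = lab σ') : rf σ = rf σ' := by
  unfold rf
  congr 1
  exact Subtype.ext h

/-- the permutation inside the fibres -/
noncomputable def tau {m C : ℕ} {y : Q m C → ℕ} (σ : Sg y) (q : Q m C) : Q m C :=
  σ.1 ((rf σ).1.symm q)

theorem tau_fst {m C : ℕ} {y : Q m C → ℕ} (σ : Sg y) (q : Q m C) : (tau σ q).1 = q.1 := by
  unfold tau
  rw [← rf_lab, Equiv.apply_symm_apply]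

theorem tau_inj {m C : ℕ} {y : Q m C → ℕ} (σ : Sg y) : Function.Injective (tau σ) := by
  intro q q' h
  unfold tau at h
  exact (rf σ).1.symm.injective (σ.1.injective h)

/-- the code of a good permutation -/
noncomputable def code {m C : ℕ} {y : Q m C → ℕ} (σ : Sg y) :
    (Fin m → (Fin C ↪ Fin C)) × Gg y :=
  (fun v => ⟨fun c => (tau σ (v, c)).2, by
    intro c c' h
    have h1 : tau σ (v, c) = tau σ (v, c') := by
      apply Prod.ext
      · rw [tau_fst, tau_fst]
      · exact h
    have h2 := tau_inj σ h1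
    exact congrArg Prod.snd h2⟩, lab σ)

theorem code_inj {m C : ℕ} {y : Q m C → ℕ} : Function.Injective (code (y := y)) := by
  intro σ σ' h
  have h1 : lab σ = lab σ' := congrArg Prod.snd h
  have h2 : ∀ v c, (tau σ (v, c)).2 = (tau σ' (v, c)).2 := by
    intro v c
    have := congrArg Prod.fst h
    have h3 := congrFun this v
    exact DFunLike.congr_fun h3 c
  have h3 : ∀ q, tau σ q = tau σ' q := by
    intro q
    apply Prod.ext
    · rw [tau_fst, tau_fst]
    · exact h2 q.1 q.2
  apply Subtype.ext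
  ext1 q
  have h4 := h3 ((rf σ).1 q)
  unfold tau at h4
  rw [← rf_eq h1, Equiv.symm_apply_apply] at h4
  exact h4

end XA1

open XA1 in
/-- A1 -/
theorem I_A1 : StA1 := by
  intro m C y
  have h := Nat.card_le_card_of_injective (code (y := y)) code_inj
  refine h.trans ?_
  rw [Nat.card_prod, Nat.card_fun, Nat.card_eq_fintype_card (α := Fin C ↪ Fin C),
    Fintype.card_embedding_eq, Fintype.card_fin, Nat.descFactorial_self, Nat.card_fin]

end Pool.Agent.PR
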