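import Pool.Agent.Work.MP_030dc9_lc.Defs

/-! MP_030dc9_lc: item A2 -/

set_option autoImplicit false

namespace Pool.Agent.PR

namespace XA2

/-- the restrictions of `g` to the fibres of `y` -/
def rest (m C W : ℕ) (y : Q m C → ℕ)
    (g : {g : Q m C → Fin m // ∀ q q', g q = g q' → y q = y q' → q = q'}) (t : Fin W) :
    {q : Q m C // y q = (t : ℕ)} ↪ Fin m :=
  ⟨fun q => g.1 q.1, fun q q' h => Subtype.ext (g.2 q.1 q'.1 h (q.2.trans q'.2.symm))⟩

theorem rest_inj (m C W : ℕ) (y : Q m C → ℕ) (hy : ∀ q, y q < W) :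
    Function.Injective (rest m C W y) := by
  intro g g' h
  apply Subtype.ext
  funext q
  have h1 := congrFun h ⟨y q, hy q⟩
  have h2 := DFunLike.congr_fun h1 ⟨q, rfl⟩
  exact h2

end XA2

theorem I_A2 : StA2 := by
  intro m C W y hy
  classical
  calc Nat.card {g : Q m C → Fin m // ∀ q q', g q = g q' → y q = y q' → q = q'}
      ≤ Nat.card ((t : Fin W) → ({q : Q m C // y q = (t : ℕ)} ↪ Fin m)) :=
        Nat.card_le_card_of_injective _ (XA2.rest_inj m C W y hy)
    _ = ∏ t : Fin W, Nat.card ({q : Q m C // y q = (t : ℕ)} ↪ Fin m) := Nat.card_pi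
    _ = ∏ t ∈ Finset.range W, m.descFactorial (Nat.card {q : Q m C // y q = t}) := by
        rw [Finset.prod_range]
        refine Finset.prod_congr rfl fun t _ => ?_
        rw [Nat.card_eq_fintype_card, Nat.card_eq_fintype_card, Fintype.card_embedding_eq,
          Fintype.card_fin]

end Pool.Agent.PR
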