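import Pool.Agent.Work.MP_030dc9_lc.Defs

/-! MP_030dc9_lc, item B: comparison with a reference value. -/

set_option autoImplicit false

namespace Pool.Agent.PR

namespace XB

theorem up (m a j : ℕ) : m.descFactorial (a + j) ≤ m.descFactorial a * (m - a) ^ j := by
  induction j with
  | zero => simp
  | succ j ih =>
    rw [← Nat.add_assoc, Nat.descFactorial_succ, pow_succ, ← Nat.mul_assoc,
      Nat.mul_comm (m.descFactorial a * (m - a) ^ j) (m - a)]
    exact Nat.mul_le_mul (by omega) ih

theorem down (m n a i : ℕ) (h : n + i ≤ a) :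
    m.descFactorial n * (m - a) ^ i ≤ m.descFactorial (n + i) := by
  induction i with
  | zero => simp
  | succ i ih =>
    rw [← Nat.add_assoc, Nat.descFactorial_succ, pow_succ, ← Nat.mul_assoc,
      Nat.mul_comm (m.descFactorial n * (m - a) ^ i) (m - a)]
    exact Nat.mul_le_mul (by omega) (ih (by omega))

end XB

theorem I_B : StB := by
  intro m n a _
  rcases le_total a n with h | h
  · obtain ⟨j, rfl⟩ := Nat.exists_eq_add_of_le h
    calc m.descFactorial (a + j) * (m - a) ^ a
        ≤ (m.descFactorial a * (m - a) ^ j) * (m - a) ^ a := Nat.mul_le_mul_right _ (XB.up m a j)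
      _ = m.descFactorial a * (m - a) ^ (a + j) := by rw [pow_add]; ring
  · obtain ⟨j, rfl⟩ := Nat.exists_eq_add_of_le h
    calc m.descFactorial n * (m - (n + j)) ^ (n + j)
        = (m.descFactorial n * (m - (n + j)) ^ j) * (m - (n + j)) ^ n := by rw [pow_add]; ring
      _ ≤ m.descFactorial (n + j) * (m - (n + j)) ^ n :=
        Nat.mul_le_mul_right _ (XB.down m n (n + j) j le_rfl)

end Pool.Agent.PR
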