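import Pool.Agent.Work.MP_030dc9_lc.Defs

set_option autoImplicit false

namespace Pool.Agent.PR

namespace XBLK

theorem fiber_prod {m C W : ℕ} (a : ℕ → ℕ) (y : Q m C → ℕ) (hy : ∀ q, y q < W) :
    ∏ t ∈ Finset.range W, (m - a t) ^ (Nat.card {q : Q m C // y q = t}) =
      ∏ q, (m - a (y q)) := by
  classical
  rw [← Finset.prod_fiberwise_of_maps_to (s := Finset.univ) (t := Finset.range W) (g := y)
    (fun q _ => Finset.mem_range.2 (hy q))]
  refine Finset.prod_congr rfl fun t _ => ?_
  have h1 : ∏ i ∈ Finset.univ.filter (fun q : Q m C => y q = t), (m - a (y i)) =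
      ∏ i ∈ Finset.univ.filter (fun q : Q m C => y q = t), (m - a t) := by
    refine Finset.prod_congr rfl fun i hi => ?_
    rw [(Finset.mem_filter.1 hi).2]
  rw [h1, Finset.prod_const, Nat.card_eq_fintype_card, Fintype.card_subtype]

end XBLK

theorem I_BLK (hA1 : StA1) (hA2 : StA2) (hB : StB) : StBlk := by
  intro m C W a y ha hy
  have h1 := hA1 m C y
  have h2 := hA2 m C W y hy
  have h3 : (∏ t ∈ Finset.range W, m.descFactorial (Nat.card {q : Q m C // y q = t})) *
      ∏ t ∈ Finset.range W, (m - a t) ^ a t ≤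
      (∏ t ∈ Finset.range W, m.descFactorial (a t)) * ∏ q, (m - a (y q)) := by
    rw [← XBLK.fiber_prod a y hy, ← Finset.prod_mul_distrib, ← Finset.prod_mul_distrib]
    exact Finset.prod_le_prod' fun t _ => hB m _ (a t) (ha t)
  calc Nat.card {σ : Equiv.Perm (Q m C) // ∀ q q', (σ q).1 = (σ q').1 → y q = y q' → q = q'} *
      ∏ t ∈ Finset.range W, (m - a t) ^ a t
      ≤ ((C.factorial) ^ m *
        ∏ t ∈ Finset.range W, m.descFactorial (Nat.card {q : Q m C // y q = t})) *
      ∏ t ∈ Finset.range W, (m - a t) ^ a t := by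
        refine Nat.mul_le_mul_right _ (h1.trans (Nat.mul_le_mul_left _ h2))
    _ = (C.factorial) ^ m * ((∏ t ∈ Finset.range W,
          m.descFactorial (Nat.card {q : Q m C // y q = t})) *
      ∏ t ∈ Finset.range W, (m - a t) ^ a t) := by ring
    _ ≤ (C.factorial) ^ m * ((∏ t ∈ Finset.range W, m.descFactorial (a t)) *
          ∏ q, (m - a (y q))) := Nat.mul_le_mul_left _ h3
    _ = _ := by ring

end Pool.Agent.PR
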