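import Pool.Agent.Work.MP_030dc9_lc.Defs

set_option autoImplicit false

namespace Pool.Agent.PR

namespace XCMP

theorem pos_zero {m C k : ℕ} {J : Type} (ω : Fin k → Reg m C) (g : J → Ps m C) :
    pos k ω g 0 = g := by
  cases k <;> rfl

theorem pos_succ {m C k : ℕ} {J : Type} (ω : Fin (k + 1) → Reg m C) (g : J → Ps m C) (s : ℕ) :
    pos (k + 1) ω g (s + 1) = pos k (Fin.tail ω) (step (ω 0) ∘ g) s := rfl

end XCMP

open XCMP in
theorem I_CMP (hl : StLev) (hp : StPosb) : StCmp := by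
  classical
  intro m C W k
  induction k with
  | zero =>
    intro a J _ g d hg ha hd
    simp
  | succ k ih =>
    intro a J _ g d hg ha hd
    have hbij : ∀ σ : Reg m C, Function.Bijective (step σ ∘ g) := by
      intro σ
      have := hp m C 1 (fun _ => σ) J g 1 hg
      simpa [pos] using this
    -- the injection
    have h1 : Nat.card {ω : Fin (k + 1) → Reg m C //
          ∀ s, s < k + 1 → Ok (pos (k + 1) ω g (s + 1)) (d s)} =
        ∑ σ : {σ : Reg m C // Ok (step σ ∘ g) (d 0)},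
          Nat.card {ω : Fin k → Reg m C //
            ∀ s, s < k → Ok (pos k ω (step σ.1 ∘ g) (s + 1)) (d (s + 1))} := by
      rw [← Nat.card_sigma]
      apply Nat.card_congr
      refine ⟨fun ω => ⟨⟨ω.1 0, ?_⟩, ⟨Fin.tail ω.1, ?_⟩⟩, fun x => ⟨Fin.cons x.1.1 x.2.1, ?_⟩, ?_, ?_⟩
      · have := ω.2 0 (Nat.succ_pos k)
        rw [pos_succ, pos_zero] at this
        exact this
      · intro s hs
        exact ω.2 (s + 1) (Nat.succ_lt_succ hs)
      · intro s hs
        rcases s with _ | s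
        · rw [pos_succ, pos_zero]
          simpa using x.1.2
        · rw [pos_succ]
          simpa using x.2.2 s (Nat.lt_of_succ_lt_succ hs)
      · intro ω
        simp
      · intro x
        rcases x with ⟨⟨σ, hσ⟩, ⟨ω, hω⟩⟩
        rfl
    rw [h1, Finset.sum_mul]
    set X : ℕ → ℕ := fun s => (∏ t ∈ Finset.range W, (m - a s t) ^ a s t) ^ m with hX
    set Y : ℕ → ℕ := fun s =>
      ((C.factorial) ^ m * ∏ t ∈ Finset.range W, m.descFactorial (a s t)) ^ m with hY
    set Z : ℕ → ℕ := fun s => ∏ j, (m - a s (d s j)) with hZ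
    change ∑ σ : {σ : Reg m C // Ok (step σ ∘ g) (d 0)}, Nat.card {ω : Fin k → Reg m C //
            ∀ s, s < k → Ok (pos k ω (step σ.1 ∘ g) (s + 1)) (d (s + 1))} *
          ∏ s ∈ Finset.range (k + 1), X s ≤
      (∏ s ∈ Finset.range (k + 1), Y s) * ∏ s ∈ Finset.range (k + 1), Z s
    rw [Finset.prod_range_succ', Finset.prod_range_succ' Y, Finset.prod_range_succ' Z]
    have h2 : ∀ σ : {σ : Reg m C // Ok (step σ ∘ g) (d 0)}, Nat.card {ω : Fin k → Reg m C //
            ∀ s, s < k → Ok (pos k ω (step σ.1 ∘ g) (s + 1)) (d (s + 1))} *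
          ∏ s ∈ Finset.range k, X (s + 1) ≤
        (∏ s ∈ Finset.range k, Y (s + 1)) * ∏ s ∈ Finset.range k, Z (s + 1) := by
      intro σ
      exact ih (fun s => a (s + 1)) J (step σ.1 ∘ g) (fun s => d (s + 1)) (hbij σ.1)
        (fun s t => ha (s + 1) t) (fun s j => hd (s + 1) j)
    have h3 : Nat.card {σ : Reg m C // Ok (step σ ∘ g) (d 0)} * X 0 ≤ Y 0 * Z 0 :=
      hl m C W (a 0) J g (d 0) hg (ha 0) (hd 0)
    calc ∑ σ : {σ : Reg m C // Ok (step σ ∘ g) (d 0)}, Nat.card {ω : Fin k → Reg m C //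
            ∀ s, s < k → Ok (pos k ω (step σ.1 ∘ g) (s + 1)) (d (s + 1))} *
          ((∏ s ∈ Finset.range k, X (s + 1)) * X 0)
        = ∑ σ : {σ : Reg m C // Ok (step σ ∘ g) (d 0)}, (Nat.card {ω : Fin k → Reg m C //
            ∀ s, s < k → Ok (pos k ω (step σ.1 ∘ g) (s + 1)) (d (s + 1))} *
          ∏ s ∈ Finset.range k, X (s + 1)) * X 0 := by
          apply Finset.sum_congr rfl
          intro σ _
          ring
      _ ≤ ∑ _σ : {σ : Reg m C // Ok (step σ ∘ g) (d 0)},
          ((∏ s ∈ Finset.range k, Y (s + 1)) * ∏ s ∈ Finset.range k, Z (s + 1)) * X 0 := by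
          apply Finset.sum_le_sum
          intro σ _
          exact Nat.mul_le_mul_right _ (h2 σ)
      _ = ((∏ s ∈ Finset.range k, Y (s + 1)) * ∏ s ∈ Finset.range k, Z (s + 1)) *
          (Nat.card {σ : Reg m C // Ok (step σ ∘ g) (d 0)} * X 0) := by
          rw [Finset.sum_const, Finset.card_univ, ← Nat.card_eq_fintype_card, smul_eq_mul]
          ring
      _ ≤ ((∏ s ∈ Finset.range k, Y (s + 1)) * ∏ s ∈ Finset.range k, Z (s + 1)) *
          (Y 0 * Z 0) := Nat.mul_le_mul_left _ h3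
      _ = _ := by ring

end Pool.Agent.PR
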