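import Pool.Agent.Work.MP_030dc9_lc.Defs

/-! MP_030dc9_lc, item CONG: the congestion of the leveled instances. -/

set_option autoImplicit false

namespace Pool.Agent.PR

namespace XCONG

variable {m C k : ℕ} {ω : Fin k → Reg m C}

theorem uses_iff (hl : StPosl) (j : Ps m C) (x y : Fin (k + 1) × Fin m) :
    (inst m C k ω).Uses j (x, y) ↔ (x.1 : ℕ) + 1 = y.1 ∧
      (pos k ω id ((x.1 : ℕ) + 1) j).1 = x.2 ∧ (pos k ω id ((x.1 : ℕ) + 1) j).2.1 = y.2 := by
  constructor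
  · rintro ⟨t, ht, h1, h2⟩
    have htk : t < k := ht
    obtain ⟨h3, h4⟩ := Prod.ext_iff.1 (show ((⟨min t k, by omega⟩ : Fin (k + 1)),
      (pos k ω id (min t k) j).2.1) = (x.1, x.2) from h1)
    obtain ⟨h5, h6⟩ := Prod.ext_iff.1 (show ((⟨min (t + 1) k, by omega⟩ : Fin (k + 1)),
      (pos k ω id (min (t + 1) k) j).2.1) = (y.1, y.2) from h2)
    have e1 : min t k = t := by omega
    have e2 : min (t + 1) k = t + 1 := by omega
    have h3' : (x.1 : ℕ) = t := by
      rw [← h3]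
      exact e1
    have h5' : (y.1 : ℕ) = t + 1 := by
      rw [← h5]
      exact e2
    have h4' : (pos k ω id (min t k) j).2.1 = x.2 := h4
    have h6' : (pos k ω id (min (t + 1) k) j).2.1 = y.2 := h6
    clear h3 h4 h5 h6
    rw [h3', h5']
    rw [e1] at h4'
    rw [e2] at h6'
    exact ⟨rfl, (hl m C k ω (Ps m C) id t j htk).trans h4', h6'⟩
  · rintro ⟨h1, h2, h3⟩
    have hy := y.1.2
    have hx : (x.1 : ℕ) < k := by omega
    have e1 : min (x.1 : ℕ) k = x.1 := by omega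
    have e2 : min ((x.1 : ℕ) + 1) k = x.1 + 1 := by omega
    refine ⟨x.1, hx, ?_, ?_⟩
    · show ((⟨min (x.1 : ℕ) k, by omega⟩ : Fin (k + 1)), (pos k ω id (min (x.1 : ℕ) k) j).2.1) = x
      refine Prod.ext (Fin.ext e1) ?_
      show (pos k ω id (min (x.1 : ℕ) k) j).2.1 = x.2
      rw [e1, ← h2]
      exact (hl m C k ω (Ps m C) id x.1 j hx).symm
    · show ((⟨min ((x.1 : ℕ) + 1) k, by omega⟩ : Fin (k + 1)),
        (pos k ω id (min ((x.1 : ℕ) + 1) k) j).2.1) = y
      refine Prod.ext (Fin.ext (e2.trans h1)) ?_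
      show (pos k ω id (min ((x.1 : ℕ) + 1) k) j).2.1 = y.2
      rw [e2, ← h3]

theorem card_le (hb : StPosb) (hl : StPosl) (e : (Fin (k + 1) × Fin m) × (Fin (k + 1) × Fin m)) :
    Nat.card {i : Ps m C // (inst m C k ω).Uses i e} ≤ C := by
  obtain ⟨x, y⟩ := e
  have hinj : Function.Injective fun j : {i : Ps m C // (inst m C k ω).Uses i (x, y)} =>
      (pos k ω id ((x.1 : ℕ) + 1) j.1).2.2 := by
    intro j j' h
    obtain ⟨-, h2, h3⟩ := (uses_iff hl j.1 x y).1 j.2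
    obtain ⟨-, h5, h6⟩ := (uses_iff hl j'.1 x y).1 j'.2
    apply Subtype.ext
    apply (hb m C k ω (Ps m C) id ((x.1 : ℕ) + 1) Function.bijective_id).1
    exact Prod.ext (h2.trans h5.symm) (Prod.ext (h3.trans h6.symm) h)
  have := Nat.card_le_card_of_injective _ hinj
  rwa [Nat.card_eq_fintype_card (α := Fin C), Fintype.card_fin] at this

theorem le_card (hb : StPosb) (hl : StPosl) (hm : 0 < m) (hk : 0 < k) :
    C ≤ Nat.card {i : Ps m C // (inst m C k ω).Uses i
      ((⟨0, by omega⟩, ⟨0, hm⟩), (⟨1, by omega⟩, ⟨0, hm⟩))} := by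
  have hsurj := (hb m C k ω (Ps m C) id 1 Function.bijective_id).2
  choose f hf using fun c : Fin C => hsurj (⟨0, hm⟩, (⟨0, hm⟩, c))
  have hu : ∀ c, (inst m C k ω).Uses (f c)
      ((⟨0, by omega⟩, ⟨0, hm⟩), (⟨1, by omega⟩, ⟨0, hm⟩)) := by
    intro c
    rw [uses_iff hl]
    refine ⟨rfl, ?_, ?_⟩
    · show (pos k ω id 1 (f c)).1 = _
      rw [hf]
    · show (pos k ω id 1 (f c)).2.1 = _
      rw [hf]
  have hinj : Function.Injective fun c : Fin C =>
      (⟨f c, hu c⟩ : {i : Ps m C // (inst m C k ω).Uses i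
        ((⟨0, by omega⟩, ⟨0, hm⟩), (⟨1, by omega⟩, ⟨0, hm⟩))}) := by
    intro c c' h
    have h1 : f c = f c' := congrArg Subtype.val h
    have h2 := (hf c).symm.trans ((congrArg (pos k ω id 1) h1).trans (hf c'))
    exact congrArg (fun p : Ps m C => p.2.2) h2
  have := Nat.card_le_card_of_injective _ hinj
  rwa [Nat.card_eq_fintype_card (α := Fin C), Fintype.card_fin] at this

end XCONG

theorem I_CONG (hb : StPosb) (hl : StPosl) : StCong := by
  intro m C k ω hm hC hk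
  have : Nonempty ((inst m C k ω).V × (inst m C k ω).V) :=
    ⟨(((⟨0, by omega⟩, ⟨0, hm⟩) : Fin (k + 1) × Fin m), ((⟨0, by omega⟩, ⟨0, hm⟩) : Fin (k + 1) × Fin m))⟩
  refine le_antisymm (ciSup_le fun e => XCONG.card_le hb hl e) ?_
  refine (XCONG.le_card (ω := ω) hb hl hm hk).trans ?_
  exact le_ciSup (f := fun e : (inst m C k ω).V × (inst m C k ω).V =>
    Nat.card {i : (inst m C k ω).P // (inst m C k ω).Uses i e})
    ⟨C, by rintro _ ⟨e, rfl⟩; exact XCONG.card_le hb hl e⟩ _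

end Pool.Agent.PR
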