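import Pool.Agent.Work.MP_030dc9_lc.Defs

set_option autoImplicit false

namespace Pool.Agent.PR

theorem I_DIL : StDil := by
  intro m C k ω hm hC
  haveI : Nonempty (inst m C k ω).P :=
    ⟨((⟨0, hm⟩, (⟨0, hm⟩, ⟨0, hC⟩)) : Ps m C)⟩
  show (⨆ _i : (inst m C k ω).P, k) = k
  exact ciSup_const

end Pool.Agent.PR
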