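import Pool.Agent.Work.MP_030dc9_lc.Defs

/-! MP_030dc9_lc, item DP: the row recursion for the weighted number of delay functions. -/

set_option autoImplicit false

namespace Pool.Agent.PR

namespace XDP

open Finset

open Classical in
/-- monotone functions with last value `t` -/
noncomputable def ML (k W : ℕ) (t : Fin W) : Finset (Fin (k + 1) → Fin W) :=
  univ.filter fun p => Monotone p ∧ p (Fin.last k) = t

theorem mem_ML {k W : ℕ} {t : Fin W} {p : Fin (k + 1) → Fin W} :
    p ∈ ML k W t ↔ Monotone p ∧ p (Fin.last k) = t := by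
  unfold ML
  rw [mem_filter]
  exact ⟨fun h => h.2, fun h => ⟨mem_univ _, h⟩⟩

/-- the weight of a function -/
def wt (w : ℕ → ℕ → ℕ) {k W : ℕ} (p : Fin k → Fin W) : ℕ := ∏ s : Fin k, w s (p s)

theorem init_mono {k W : ℕ} {p : Fin (k + 2) → Fin W} (h : Monotone p) :
    Monotone (Fin.init p : Fin (k + 1) → Fin W) := by
  intro a b hab
  exact h (Fin.castSucc_le_castSucc_iff.2 hab)

theorem snoc_mono {k W : ℕ} {p : Fin (k + 1) → Fin W} (h : Monotone p) {t : Fin W}
    (ht : p (Fin.last k) ≤ t) : Monotone (Fin.snoc p t : Fin (k + 2) → Fin W) := by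
  intro a b
  refine Fin.lastCases ?_ (fun b => ?_) b
  · intro _
    refine Fin.lastCases ?_ (fun a => ?_) a
    · exact le_rfl
    · rw [Fin.snoc_castSucc, Fin.snoc_last]
      exact (h (Fin.le_last a)).trans ht
  · refine Fin.lastCases ?_ (fun a => ?_) a
    · intro hab
      exact absurd hab (not_le.2 (Fin.castSucc_lt_last b))
    · intro hab
      rw [Fin.snoc_castSucc, Fin.snoc_castSucc]
      exact h (Fin.castSucc_le_castSucc_iff.1 hab)

theorem wt_snoc (w : ℕ → ℕ → ℕ) {k W : ℕ} (p : Fin (k + 1) → Fin W) (t : Fin W) :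
    wt w (Fin.snoc p t : Fin (k + 2) → Fin W) = wt w p * w (k + 1) t := by
  unfold wt
  rw [Fin.prod_univ_castSucc]
  congr 1
  · refine Finset.prod_congr rfl fun s _ => ?_
    rw [Fin.snoc_castSucc, Fin.val_castSucc]
  · rw [Fin.snoc_last, Fin.val_last]

open Classical in
theorem step (w : ℕ → ℕ → ℕ) (k W : ℕ) (t : Fin W) :
    ∑ p ∈ ML (k + 1) W t, wt w p =
      w (k + 1) t * ∑ t' ∈ univ.filter (fun t' : Fin W => t' ≤ t), ∑ p ∈ ML k W t', wt w p := by
  have h1 : ∑ t' ∈ univ.filter (fun t' : Fin W => t' ≤ t), ∑ p ∈ ML k W t', wt w p =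
      ∑ p ∈ univ.filter (fun p : Fin (k + 1) → Fin W => Monotone p ∧ p (Fin.last k) ≤ t),
        wt w p := by
    rw [← Finset.sum_fiberwise_of_maps_to (g := fun p : Fin (k + 1) → Fin W => p (Fin.last k))
      (t := univ.filter (fun t' : Fin W => t' ≤ t))
      (s := univ.filter (fun p : Fin (k + 1) → Fin W => Monotone p ∧ p (Fin.last k) ≤ t))]
    · refine Finset.sum_congr rfl fun t' ht' => ?_
      refine Finset.sum_congr ?_ fun _ _ => rfl
      ext p
      rw [mem_ML, mem_filter, mem_filter]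
      rw [mem_filter] at ht'
      constructor
      · rintro ⟨a, b⟩
        exact ⟨⟨mem_univ _, a, b ▸ ht'.2⟩, b⟩
      · rintro ⟨⟨_, a, _⟩, b⟩
        exact ⟨a, b⟩
    · intro p hp
      rw [mem_filter] at hp
      exact mem_filter.2 ⟨mem_univ _, hp.2.2⟩
  rw [h1, Finset.mul_sum]
  refine Finset.sum_nbij' (fun p => Fin.init p) (fun p => Fin.snoc p t) ?_ ?_ ?_ ?_ ?_
  · intro p hp
    rw [mem_ML] at hp
    refine mem_filter.2 ⟨mem_univ _, init_mono hp.1, ?_⟩
    rw [← hp.2]
    exact hp.1 (Fin.le_last _)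
  · intro p hp
    rw [mem_filter] at hp
    rw [mem_ML]
    exact ⟨snoc_mono hp.2.1 hp.2.2, Fin.snoc_last _ _⟩
  · intro p hp
    rw [mem_ML] at hp
    rw [← hp.2]
    exact Fin.snoc_init_self p
  · intro p _
    exact Fin.init_snoc _ _
  · intro p hp
    rw [mem_ML] at hp
    have h2 : p = Fin.snoc (Fin.init p) t := by
      rw [← hp.2]
      exact (Fin.snoc_init_self p).symm
    conv_lhs => rw [h2]
    rw [wt_snoc, mul_comm]

theorem sum_le_range {W : ℕ} (t : Fin W) (f : ℕ → ℕ) :
    ∑ t' ∈ univ.filter (fun t' : Fin W => t' ≤ t), f t' = ∑ t' ∈ range (t + 1), f t' := by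
  refine Finset.sum_nbij (fun x => (x : ℕ)) ?_ ?_ ?_ ?_
  · intro x hx
    rw [mem_filter] at hx
    exact mem_range.2 (Nat.lt_succ_of_le (Fin.le_def.1 hx.2))
  · intro x _ y _ h
    exact Fin.ext h
  · intro x hx
    rw [coe_range, Set.mem_Iio] at hx
    refine ⟨⟨x, by omega⟩, ?_, rfl⟩
    rw [coe_filter]
    refine ⟨mem_univ _, ?_⟩
    exact Fin.le_def.2 (Nat.lt_succ_iff.1 hx)
  · intro x _
    rfl

theorem key (w : ℕ → ℕ → ℕ) (k W : ℕ) (t : Fin W) : ∑ p ∈ ML k W t, wt w p = row w k t := by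
  classical
  induction k generalizing t with
  | zero =>
    have h1 : ML 0 W t = {fun _ => t} := by
      ext p
      rw [mem_ML, mem_singleton]
      constructor
      · rintro ⟨_, h⟩
        funext s
        have hs : s = Fin.last 0 := Fin.ext (by omega)
        rw [hs]
        exact h
      · rintro rfl
        exact ⟨fun _ _ _ => le_rfl, rfl⟩
    rw [h1, Finset.sum_singleton]
    unfold wt row
    rw [Fin.prod_univ_one]
    rfl
  | succ k ih =>
    rw [step]
    unfold row
    rw [← sum_le_range]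
    congr 1
    exact Finset.sum_congr rfl fun t' _ => ih t'

end XDP

theorem I_DP : StDp := by
  classical
  intro k W w
  have h1 : Zv (k + 1) W w =
      ∑ p ∈ Finset.univ.filter (fun p : Fin (k + 1) → Fin W => Monotone p), XDP.wt w p := by
    exact (Finset.sum_subtype (Finset.univ.filter fun p : Fin (k + 1) → Fin W => Monotone p)
      (p := fun p => Monotone p) (fun p => by rw [Finset.mem_filter]; simp) (XDP.wt w)).symm
  rw [h1, Finset.sum_range, ← Finset.sum_fiberwise_of_maps_to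
    (g := fun p : Fin (k + 1) → Fin W => p (Fin.last k)) (t := Finset.univ)
    (fun p _ => Finset.mem_univ _)]
  refine Finset.sum_congr rfl fun t _ => ?_
  rw [← XDP.key w k W t]
  refine Finset.sum_congr ?_ fun _ _ => rfl
  ext p
  rw [XDP.mem_ML, Finset.mem_filter, Finset.mem_filter]
  exact ⟨fun h => ⟨h.1.2, h.2⟩, fun h => ⟨⟨Finset.mem_univ _, h.1⟩, h.2⟩⟩

end Pool.Agent.PR
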