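import Pool.Agent.Work.MP_030dc9_lc.Defs

/-! MP_030dc9_lc, item EXT: every instance has a schedule. -/

set_option autoImplicit false

namespace Pool.Agent.PR

namespace XEXT

theorem div_eq {L a s : ℕ} (hs : s < L) : (a * L + s) / L = a := by
  have hL : 0 < L := by omega
  rw [Nat.add_comm, Nat.add_mul_div_right _ _ hL, Nat.div_eq_of_lt hs, Nat.zero_add]

end XEXT

open XEXT in
/-- EXT: every instance has a schedule -/
theorem I_EXT : StExt := by
  intro I
  classical
  obtain ⟨n, ⟨e⟩⟩ := Finite.exists_equiv_fin I.P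
  set L := Finset.univ.sup I.len + 1 with hL
  have hlen : ∀ i, I.len i < L := fun i =>
    Nat.lt_succ_of_le (Finset.le_sup (f := I.len) (Finset.mem_univ i))
  refine ⟨n * L, ⟨⟨fun i t => (e i : ℕ) * L + t + 1, ?_, ?_, ?_, ?_⟩⟩⟩
  · intro i t _
    exact Nat.le_add_left _ _
  · intro i t ht
    have h1 := hlen i
    have h2 : (e i : ℕ) + 1 ≤ n := (e i).isLt
    have h3 : ((e i : ℕ) + 1) * L ≤ n * L := Nat.mul_le_mul_right _ h2
    rw [Nat.add_mul, Nat.one_mul] at h3
    show (e i : ℕ) * L + t + 1 ≤ n * L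
    omega
  · intro i t _
    show (e i : ℕ) * L + t + 1 < (e i : ℕ) * L + (t + 1) + 1
    omega
  · intro i j s t hs ht _ _ h
    have h1 := hlen i
    have h2 := hlen j
    have h3 : (e i : ℕ) * L + s = (e j : ℕ) * L + t := Nat.succ.inj h
    have h4 : (e i : ℕ) = (e j : ℕ) := by
      rw [← div_eq (L := L) (a := (e i : ℕ)) (s := s) (by omega), h3, div_eq (by omega)]
    exact e.injective (Fin.ext h4)

end Pool.Agent.PR
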