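import Pool.Agent.Work.MP_030dc9_lc.Defs

set_option autoImplicit false

namespace Pool.Agent.PR

namespace XLEV

/-- the delays seen at the node `v` -/
noncomputable def yv {m C : ℕ} {J : Type} (e : J ≃ Ps m C) (y : J → ℕ) (v : Fin m) (q : Q m C) : ℕ :=
  y (e.symm (q.1, (v, q.2)))

/-- the condition at the node `v` -/
def Pv {m C : ℕ} (z : Q m C → ℕ) (τ : Equiv.Perm (Q m C)) : Prop :=
  ∀ q q', (τ q).1 = (τ q').1 → z q = z q' → q = q'

theorem ok_iff {m C : ℕ} {J : Type} (e : J ≃ Ps m C) (y : J → ℕ) (σ : Reg m C) :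
    Ok (step σ ∘ e) y ↔ ∀ v, Pv (yv e y v) (σ v) := by
  constructor
  · intro h v q q' h1 h2
    have h3 := h (e.symm (q.1, (v, q.2))) (e.symm (q'.1, (v, q'.2)))
      (by simp [step]) (by simpa [step] using h1) h2
    have h4 := e.symm.injective h3
    simp only [Prod.mk.injEq, true_and] at h4
    exact Prod.ext h4.1 h4.2
  · intro h j j' h1 h2 h3
    simp only [Function.comp, step] at h1 h2
    have h4 := h (e j).2.1 ((e j).1, (e j).2.2) ((e j').1, (e j').2.2)
    have h5 : yv e y (e j).2.1 ((e j).1, (e j).2.2) = y j := by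
      unfold yv
      simp
    have h6 : yv e y (e j).2.1 ((e j').1, (e j').2.2) = y j' := by
      unfold yv
      rw [h1]
      simp
    have h7 := h4 (by rw [h2, h1]) (by rw [h5, h6, h3])
    simp only [Prod.mk.injEq] at h7
    apply e.injective
    exact Prod.ext h7.1 (Prod.ext h1 h7.2)

theorem prod_eq {m C : ℕ} {J : Type} [Fintype J] (e : J ≃ Ps m C) (y : J → ℕ) (f : ℕ → ℕ) :
    ∏ v : Fin m, ∏ q : Q m C, f (yv e y v q) = ∏ j, f (y j) := by
  rw [← Equiv.prod_comp e.symm (fun j => f (y j))]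
  rw [← Fintype.prod_prod_type' (fun (v : Fin m) (q : Q m C) => f (yv e y v q))]
  apply Fintype.prod_equiv
    (⟨fun x => (x.2.1, (x.1, x.2.2)), fun p => (p.2.1, (p.1, p.2.2)), fun _ => rfl, fun _ => rfl⟩ :
      Fin m × Q m C ≃ Ps m C)
  intro x
  rfl

end XLEV

open XLEV in
theorem I_LEV (hb : StBlk) : StLev := by
  intro m C W a J _ g y hg ha hy
  have key : ∀ e : J ≃ Ps m C, Nat.card {σ : Reg m C // Ok (step σ ∘ e) y} *
      (∏ t ∈ Finset.range W, (m - a t) ^ a t) ^ m ≤
    ((C.factorial) ^ m * ∏ t ∈ Finset.range W, m.descFactorial (a t)) ^ m *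
      ∏ j, (m - a (y j)) := by
    intro e
    have h1 : Nat.card {σ : Reg m C // Ok (step σ ∘ e) y} =
        ∏ v : Fin m, Nat.card {τ : Equiv.Perm (Q m C) // Pv (yv e y v) τ} := by
      rw [← Nat.card_pi]
      apply Nat.card_congr
      refine Equiv.trans (Equiv.subtypeEquivRight fun σ => ok_iff e y σ) ?_
      exact Equiv.subtypePiEquivPi
    rw [h1, ← prod_eq e y (fun t => m - a t)]
    have h2 : ∀ v : Fin m, Nat.card {τ : Equiv.Perm (Q m C) // Pv (yv e y v) τ} *
        ∏ t ∈ Finset.range W, (m - a t) ^ a t ≤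
      ((C.factorial) ^ m * ∏ t ∈ Finset.range W, m.descFactorial (a t)) *
        ∏ q, (m - a (yv e y v q)) := fun v =>
      hb m C W a (yv e y v) ha (fun q => hy _)
    have h3 := Finset.prod_le_prod' (s := Finset.univ) (fun v _ => h2 v)
    rw [Finset.prod_mul_distrib, Finset.prod_mul_distrib, Finset.prod_const, Finset.prod_const,
      Finset.card_univ, Fintype.card_fin] at h3
    exact h3
  exact key (Equiv.ofBijective g hg)

end Pool.Agent.PR
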