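import Pool.Agent.Work.MP_030dc9_lc.Defs

/-! MP_030dc9_lc, item POSB: the position maps are bijective. -/

set_option autoImplicit false

namespace Pool.Agent.PR

namespace XPOSB

theorem step_bij {m C : ℕ} (σ : Reg m C) : Function.Bijective (step σ) := by
  apply Finite.injective_iff_bijective.mp
  intro p q h
  unfold step at h
  rw [Prod.mk.injEq] at h
  obtain ⟨h1, h2⟩ := h
  rw [h1] at h2
  have h3 := (σ q.2.1).injective h2
  rw [Prod.mk.injEq] at h3
  exact Prod.ext h3.1 (Prod.ext h1 h3.2)

theorem pos_bij {m C : ℕ} {J : Type} : ∀ (k : ℕ) (ω : Fin k → Reg m C) (g : J → Ps m C) (s : ℕ),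
    Function.Bijective g → Function.Bijective (pos k ω g s)
  | 0, ω, g, 0, hg => by simpa only [pos] using hg
  | 0, ω, g, s + 1, hg => by simpa only [pos] using hg
  | k + 1, ω, g, 0, hg => by simpa only [pos] using hg
  | k + 1, ω, g, s + 1, hg => by
      simpa only [pos] using
        pos_bij k (Fin.tail ω) (step (ω 0) ∘ g) s ((step_bij (ω 0)).comp hg)

end XPOSB

theorem I_POSB : StPosb := by
  intro m C k ω J g s hg
  exact XPOSB.pos_bij k ω g s hg

end Pool.Agent.PR
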