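import Pool.Agent.Work.MP_030dc9_lc.Defs

/-! MP_030dc9_lc, item POSL: the head of an edge is the tail of the next one. -/

set_option autoImplicit false

namespace Pool.Agent.PR

theorem I_POSL : StPosl := by
  intro m C k
  induction k with
  | zero => intro ω J g s j hs; omega
  | succ k ih =>
    intro ω J g s j hs
    cases s with
    | zero => simp [pos, step]
    | succ s =>
      have := ih (Fin.tail ω) J (step (ω 0) ∘ g) s j (by omega)
      simpa [pos] using this

end Pool.Agent.PR
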