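import Pool.Agent.Work.MP_030dc9_lc.Defs

/-! MP_030dc9_lc: a schedule gives delays. -/

set_option autoImplicit false

namespace Pool.Agent.PR

namespace XSCH

theorem lower {f : ℕ → ℕ} {k : ℕ} (h1 : ∀ t, t < k → 1 ≤ f t)
    (h2 : ∀ t, t + 1 < k → f t < f (t + 1)) : ∀ s, s < k → s + 1 ≤ f s := by
  intro s
  induction s with
  | zero => intro h; exact h1 0 h
  | succ s ih =>
    intro h
    have e1 := ih (by omega)
    have e2 := h2 s h
    omega

theorem gap {f : ℕ → ℕ} {k : ℕ} (h2 : ∀ t, t + 1 < k → f t < f (t + 1)) :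
    ∀ n s, s + n < k → f s + n ≤ f (s + n) := by
  intro n
  induction n with
  | zero => intro s _; simp
  | succ n ih =>
    intro s h
    have e1 := ih s (by omega)
    have e2 := h2 (s + n) (by omega)
    have e3 : s + (n + 1) = s + n + 1 := by omega
    rw [e3]
    omega

end XSCH

/-- SCH: a schedule gives delays -/
theorem I_SCH (hl : StPosl) : StSch := by
  intro m C k W T ω hW hT ⟨S⟩
  have h1 : ∀ j : Ps m C, ∀ t, t < k → 1 ≤ S.at' j t := fun j t ht => S.pos j t ht
  have h2 : ∀ j : Ps m C, ∀ t, t + 1 < k → S.at' j t < S.at' j (t + 1) :=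
    fun j t ht => S.mono j t ht
  have hlow : ∀ j : Ps m C, ∀ s, s < k → s + 1 ≤ S.at' j s := fun j => XSCH.lower (h1 j) (h2 j)
  have hgap : ∀ j : Ps m C, ∀ n s, s + n < k → S.at' j s + n ≤ S.at' j (s + n) :=
    fun j => XSCH.gap (h2 j)
  have hlt : ∀ j : Ps m C, ∀ s, s < k → S.at' j s - (s + 1) < W := by
    intro j s hs
    have e1 := hgap j (k - 1 - s) s (by omega)
    have e2 : s + (k - 1 - s) = k - 1 := by omega
    rw [e2] at e1
    have e3 : S.at' j (k - 1) ≤ T := S.le j (k - 1) (by change k - 1 < k; omega)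
    omega
  refine ⟨fun j => ⟨fun s => ⟨S.at' j s - ((s : ℕ) + 1), hlt j s s.2⟩, ?_⟩, ?_⟩
  · intro s s' hss
    rw [Fin.le_def]
    show S.at' j s - ((s : ℕ) + 1) ≤ S.at' j s' - ((s' : ℕ) + 1)
    have hss' : (s : ℕ) ≤ s' := hss
    obtain ⟨n, hn⟩ := Nat.exists_eq_add_of_le hss'
    have e1 := hgap j n s (by rw [← hn]; exact s'.2)
    rw [← hn] at e1
    omega
  · intro s hs j j' ha hb hy
    have hnode : ∀ i : Ps m C, ∀ t, t ≤ k →
        ((inst m C k ω).node i t : Fin (k + 1) × Fin m) =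
          (⟨min t k, by omega⟩, (pos k ω id t i).2.1) := by
      intro i t ht
      show ((⟨min t k, by omega⟩, (pos k ω id (min t k) i).2.1) : Fin (k + 1) × Fin m) = _
      refine Prod.ext rfl ?_
      show (pos k ω id (min t k) i).2.1 = (pos k ω id t i).2.1
      rw [min_eq_left ht]
    apply S.cap j j' s s hs hs
    · rw [hnode j s hs.le, hnode j' s hs.le, ← hl m C k ω _ id s j hs, ← hl m C k ω _ id s j' hs,
        ha]
    · rw [hnode j (s + 1) hs, hnode j' (s + 1) hs, hb]
    · have e1 := hlow j s hs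
      have e2 := hlow j' s hs
      have e3 : S.at' j s - (s + 1) = S.at' j' s - (s + 1) := hy
      omega

end Pool.Agent.PR
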