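import Pool.Agent.Work.MP_030dc9_lc.Defs

/-! MP_030dc9_lc, item SUMD: the sum over all families of delay functions. -/

set_option autoImplicit false

namespace Pool.Agent.PR

namespace XSUMD

theorem sum_pow {J P : Type} [Fintype J] [DecidableEq J] [Fintype P] (f : P → ℕ) :
    ∑ d : J → P, ∏ j, f (d j) = (∑ p, f p) ^ Fintype.card J := by
  classical
  rw [← Finset.card_univ, ← Finset.prod_const, Finset.prod_univ_sum, Fintype.piFinset_univ]

end XSUMD

theorem I_SUMD : StSumd := by
  intro k W w J _ _
  unfold Zv
  rw [← XSUMD.sum_pow]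
  refine Finset.sum_congr rfl fun d _ => ?_
  rw [Finset.prod_comm]

end Pool.Agent.PR
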