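import Pool.Agent.Work.MP_030dc9_lc.Asm
import Pool.Agent.Work.MP_030dc9_lc.CertL
import Pool.Agent.Work.MP_030dc9_lc.P_A1
import Pool.Agent.Work.MP_030dc9_lc.P_A2
import Pool.Agent.Work.MP_030dc9_lc.P_B
import Pool.Agent.Work.MP_030dc9_lc.P_BLK
import Pool.Agent.Work.MP_030dc9_lc.P_LEV
import Pool.Agent.Work.MP_030dc9_lc.P_CMP
import Pool.Agent.Work.MP_030dc9_lc.P_SUMD
import Pool.Agent.Work.MP_030dc9_lc.P_DP
import Pool.Agent.Work.MP_030dc9_lc.P_LIM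
import Pool.Agent.Work.MP_030dc9_lc.P_POSB
import Pool.Agent.Work.MP_030dc9_lc.P_POSL
import Pool.Agent.Work.MP_030dc9_lc.P_CONG
import Pool.Agent.Work.MP_030dc9_lc.P_DIL
import Pool.Agent.Work.MP_030dc9_lc.P_SCH
import Pool.Agent.Work.MP_030dc9_lc.P_EXT

/-! MP_030dc9_lc: the lower bound 8/7 for the offline packet routing constant. -/

set_option autoImplicit false

open scoped ENNReal

namespace Pool.Agent.PR.Cert

/-- the hypotheses of the main theorem -/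
def Good (C S W k M : ℕ) (α : ℕ → ℕ → ℕ) : Prop :=
  0 < M ∧ (∀ s t, α s t < M) ∧
    (∀ s, s < k → ∑ t ∈ Finset.range W, α s t = M * C) ∧
    (Zv k W fun s t => M - α s t) ^ C * (Nat.factorial C) ^ k * M ^ (k * S) <
      C ^ (C * k) * ∏ s ∈ Finset.range k, ∏ t ∈ Finset.range W, (M - α s t)

theorem Good.mk (C S W k M : ℕ) (α : ℕ → ℕ → ℕ) (h1 : 0 < M) (h2 : ∀ s t, α s t < M)
    (h3 : ∀ s, s < k → ∑ t ∈ Finset.range W, α s t = M * C)
    (h4 : (Zv k W fun s t => M - α s t) ^ C * (Nat.factorial C) ^ k * M ^ (k * S) <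
      C ^ (C * k) * ∏ s ∈ Finset.range k, ∏ t ∈ Finset.range W, (M - α s t)) :
    Good C S W k M α := ⟨h1, h2, h3, h4⟩

theorem m_pos : 0 < 2 ^ 252 := pow_pos (by norm_num) 252

theorem cert1 (hDp : StDp) : Good 120 48 168 216 (2 ^ 252) al := by
  refine Good.mk _ _ _ _ _ _ m_pos al_lt ?_ ?_
  · intro s hs
    exact al_row s hs
  · exact num hDp

theorem cert2 (hDp : StDp) : ∃ (M : ℕ) (α : ℕ → ℕ → ℕ), Good 120 48 168 216 M α :=
  ⟨_, _, cert1 hDp⟩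

end Pool.Agent.PR.Cert

namespace Pool.Agent.PR

theorem lower2 (hCmp : StCmp) (hSumd : StSumd) (hLim : StLim) (hCong : StCong)
    (hDil : StDil) (hSch : StSch) (hExt : StExt)
    (C S W k M : ℕ) (α : ℕ → ℕ → ℕ) (hW : W = C + S) (hC : 0 < C) (hk : 0 < k)
    (hg : Cert.Good C S W k M α) :
    ∃ I : Inst, Nonempty I.P ∧ I.cong = C ∧ I.dil = k ∧ k + W ≤ I.T := by
  subst hW
  obtain ⟨hM, hα, hrow, hnum⟩ := hg
  exact lower hCmp hSumd hLim hCong hDil hSch hExt C S k M α hC hM hk hα hrow hnum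

theorem final (hCmp : StCmp) (hSumd : StSumd) (hDp : StDp) (hLim : StLim) (hCong : StCong)
    (hDil : StDil) (hSch : StSch) (hExt : StExt) :
    ∃ I : Inst, Nonempty I.P ∧ I.cong = 120 ∧ I.dil = 216 ∧ 384 ≤ I.T := by
  obtain ⟨M, α, hg⟩ := Cert.cert2 hDp
  exact lower2 hCmp hSumd hLim hCong hDil hSch hExt 120 48 168 216 M α (by norm_num) (by norm_num)
    (by norm_num) hg

/-- an instance with congestion 120 and dilation 216 which needs at least 384 steps -/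
theorem inst_exists : ∃ I : Inst, Nonempty I.P ∧ I.cong = 120 ∧ I.dil = 216 ∧ 384 ≤ I.T := by
  have hb : StBlk := I_BLK I_A1 I_A2 I_B
  have hl : StLev := I_LEV hb
  have hc : StCmp := I_CMP hl I_POSB
  exact final hc I_SUMD I_DP I_LIM (I_CONG I_POSB I_POSL) I_DIL (I_SCH I_POSL) I_EXT

theorem cStar_ge_of (h : ∃ I : Inst, Nonempty I.P ∧ I.cong = 120 ∧ I.dil = 216 ∧ 384 ≤ I.T) :
    (8 / 7 : ℝ≥0∞) ≤ cStar := by
  obtain ⟨I, hP, hC, hD, hT⟩ := h
  refine le_trans ?_ (le_iSup_of_le I (le_iSup_of_le hP (le_iSup_of_le (by omega) le_rfl)))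
  rw [hC, hD]
  have h1 : (8 / 7 : ℝ≥0∞) = (384 : ℕ) / ((120 + 216 : ℕ) : ℝ≥0∞) := by
    rw [ENNReal.div_eq_div_iff] <;> norm_num
  rw [h1]
  gcongr

theorem cStar_ge : (8 / 7 : ℝ≥0∞) ≤ cStar := cStar_ge_of inst_exists

end Pool.Agent.PR
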