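import Pool.Agent.Work.MP_030dc9_lc.Defs

/-! MP_030dc9_lc, item LIM: the choice of the number of nodes. -/

set_option autoImplicit false

namespace Pool.Agent.PR

namespace XLIM

theorem e_step (n : ℕ) : Real.exp 1 * (n : ℝ) ^ (n + 1) ≤ ((n : ℝ) + 1) ^ (n + 1) := by
  have hn : (0 : ℝ) < (n : ℝ) + 1 := by positivity
  have h1 : (n : ℝ) / (n + 1) ≤ Real.exp (-(1 / ((n : ℝ) + 1))) := by
    have := Real.one_sub_le_exp_neg (1 / ((n : ℝ) + 1))
    refine le_trans (le_of_eq ?_) this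
    field_simp
    ring
  have h2 : ((n : ℝ) / (n + 1)) ^ (n + 1) ≤ Real.exp (-1) := by
    refine le_trans (pow_le_pow_left₀ (by positivity) h1 _) (le_of_eq ?_)
    rw [← Real.exp_nat_mul]
    congr 1
    push_cast
    field_simp
  rw [div_pow, div_le_iff₀ (by positivity)] at h2
  calc Real.exp 1 * (n : ℝ) ^ (n + 1) ≤ Real.exp 1 * (Real.exp (-1) * ((n : ℝ) + 1) ^ (n + 1)) :=
        mul_le_mul_of_nonneg_left h2 (Real.exp_pos _).le
    _ = ((n : ℝ) + 1) ^ (n + 1) := by
        rw [← mul_assoc, ← Real.exp_add]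
        simp

theorem fact_le (n : ℕ) (hn : 1 ≤ n) :
    (n.factorial : ℝ) * Real.exp 1 ^ n ≤ Real.exp 1 * n * (n : ℝ) ^ n := by
  induction n, hn using Nat.le_induction with
  | base => simp
  | succ n hn ih =>
    have hE : (0 : ℝ) < Real.exp 1 := Real.exp_pos _
    rw [Nat.factorial_succ]
    push_cast
    calc ((n : ℝ) + 1) * (n.factorial : ℝ) * Real.exp 1 ^ (n + 1)
        = (((n : ℝ) + 1) * Real.exp 1) * ((n.factorial : ℝ) * Real.exp 1 ^ n) := by ring
      _ ≤ (((n : ℝ) + 1) * Real.exp 1) * (Real.exp 1 * n * (n : ℝ) ^ n) :=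
        mul_le_mul_of_nonneg_left ih (by positivity)
      _ = (((n : ℝ) + 1) * Real.exp 1) * (Real.exp 1 * (n : ℝ) ^ (n + 1)) := by ring
      _ ≤ (((n : ℝ) + 1) * Real.exp 1) * ((n : ℝ) + 1) ^ (n + 1) :=
        mul_le_mul_of_nonneg_left (e_step n) (by positivity)
      _ = Real.exp 1 * ((n : ℝ) + 1) * ((n : ℝ) + 1) ^ (n + 1) := by ring

theorem fact_le' (a m : ℕ) (ham : a ≤ m) (hm : 1 ≤ m) :
    (a.factorial : ℝ) * Real.exp 1 ^ a ≤ Real.exp 1 * m * (a : ℝ) ^ a := by
  rcases Nat.eq_zero_or_pos a with rfl | ha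
  · have h1 : (1 : ℝ) ≤ Real.exp 1 := Real.one_le_exp (by norm_num)
    have h2 : (1 : ℝ) ≤ (m : ℝ) := by exact_mod_cast hm
    simp only [Nat.factorial_zero, pow_zero, mul_one, Nat.cast_one]
    nlinarith
  · refine le_trans (fact_le a ha) ?_
    have h2 : (a : ℝ) ≤ (m : ℝ) := by exact_mod_cast ham
    have hE : (0 : ℝ) < Real.exp 1 := Real.exp_pos _
    gcongr

theorem fact_ge (n : ℕ) : (n : ℝ) ^ n ≤ (n.factorial : ℝ) * Real.exp 1 ^ n := by
  have h := Real.pow_div_factorial_le_exp (n : ℝ) (Nat.cast_nonneg n) n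
  rw [div_le_iff₀ (by positivity)] at h
  rw [← Real.exp_nat_mul, mul_one, mul_comm]
  exact h

theorem binom_le (M α q : ℕ) (hα : α < M) :
    (q * M).choose (q * α) * α ^ (q * α) * (M - α) ^ (q * M - q * α) ≤ M ^ (q * M) := by
  have h := add_pow α (M - α) (q * M)
  rw [show α + (M - α) = M by omega] at h
  rw [h]
  have hmem : q * α ∈ Finset.range (q * M + 1) := by
    rw [Finset.mem_range]
    have : q * α ≤ q * M := Nat.mul_le_mul_left _ hα.le
    omega
  refine le_trans (le_of_eq ?_)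
    (Finset.single_le_sum (f := fun i => α ^ i * (M - α) ^ (q * M - i) * (q * M).choose i)
      (fun i _ => Nat.zero_le _) hmem)
  ring

theorem desc_le (M α q : ℕ) (hα : α < M) (hq : 0 < q) :
    ((q * M).descFactorial (q * α) : ℝ) * Real.exp 1 ^ (q * α) * ((M - α : ℕ) : ℝ) ^ (q * M) ≤
      (Real.exp 1 * ((q * M : ℕ) : ℝ)) * (M : ℝ) ^ (q * M) *
        ((q * M - q * α : ℕ) : ℝ) ^ (q * α) := by
  have hle : q * α ≤ q * M := Nat.mul_le_mul_left _ hα.le
  have hM : 0 < M := by omega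
  have hE : (0 : ℝ) < Real.exp 1 := Real.exp_pos _
  have h1 := fact_le' (q * α) (q * M) hle (Nat.mul_pos hq hM)
  have h2 : ((q * M).choose (q * α) : ℝ) * (α : ℝ) ^ (q * α) *
      ((M - α : ℕ) : ℝ) ^ (q * M - q * α) ≤ (M : ℝ) ^ (q * M) := by
    exact_mod_cast binom_le M α q hα
  have h3 : ((q * M).descFactorial (q * α) : ℝ) =
      ((q * α).factorial : ℝ) * ((q * M).choose (q * α) : ℝ) := by
    rw [Nat.descFactorial_eq_factorial_mul_choose]
    push_cast
    ring
  have h4 : ((q * M - q * α : ℕ) : ℝ) = (q : ℝ) * ((M - α : ℕ) : ℝ) := by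
    rw [← Nat.mul_sub]
    push_cast
    ring
  have h5 : ((M - α : ℕ) : ℝ) ^ (q * M) =
      ((M - α : ℕ) : ℝ) ^ (q * M - q * α) * ((M - α : ℕ) : ℝ) ^ (q * α) := by
    rw [← pow_add, Nat.sub_add_cancel hle]
  set x : ℝ := ((M - α : ℕ) : ℝ) with hx
  have hx0 : 0 ≤ x := Nat.cast_nonneg _
  rw [h3, h4, h5]
  calc ((q * α).factorial : ℝ) * ((q * M).choose (q * α) : ℝ) * Real.exp 1 ^ (q * α) *
        (x ^ (q * M - q * α) * x ^ (q * α))
      = (((q * α).factorial : ℝ) * Real.exp 1 ^ (q * α)) *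
        (((q * M).choose (q * α) : ℝ) * (x ^ (q * M - q * α) * x ^ (q * α))) := by ring
    _ ≤ (Real.exp 1 * ((q * M : ℕ) : ℝ) * ((q * α : ℕ) : ℝ) ^ (q * α)) *
        (((q * M).choose (q * α) : ℝ) * (x ^ (q * M - q * α) * x ^ (q * α))) :=
        mul_le_mul_of_nonneg_right h1 (by positivity)
    _ = (Real.exp 1 * ((q * M : ℕ) : ℝ) * (q * x) ^ (q * α)) *
        (((q * M).choose (q * α) : ℝ) * (α : ℝ) ^ (q * α) * x ^ (q * M - q * α)) := by
        push_cast
        rw [mul_pow, mul_pow]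
        ring
    _ ≤ (Real.exp 1 * ((q * M : ℕ) : ℝ) * (q * x) ^ (q * α)) * (M : ℝ) ^ (q * M) :=
        mul_le_mul_of_nonneg_left h2 (by positivity)
    _ = _ := by ring

theorem exists_q (A B M K : ℕ) (hM : 0 < M) (hAB : A < B) :
    ∃ q : ℕ, 0 < q ∧
      (Real.exp 1 * ((q * M : ℕ) : ℝ)) ^ K * (A : ℝ) ^ (q * M) < (B : ℝ) ^ (q * M) := by
  have hB : (0 : ℝ) < (B : ℝ) := by exact_mod_cast (by omega : 0 < B)
  have hE : (0 : ℝ) < Real.exp 1 := Real.exp_pos _
  have hM' : (0 : ℝ) < (M : ℝ) := by exact_mod_cast hM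
  set r : ℝ := ((A : ℝ) / B) ^ M with hr
  have hr0 : 0 ≤ r := by positivity
  have hr1 : r < 1 := by
    apply pow_lt_one₀ (by positivity) _ hM.ne'
    rw [div_lt_one hB]
    exact_mod_cast hAB
  have ht := tendsto_pow_const_mul_const_pow_of_abs_lt_one K (r := r)
    (by rw [abs_of_nonneg hr0]; exact hr1)
  have hpos : (0 : ℝ) < 1 / (Real.exp 1 * M) ^ K := by positivity
  have h1 := (ht.eventually_lt_const hpos).and (Filter.eventually_gt_atTop 0)
  obtain ⟨q, hq1, hq0⟩ := h1.exists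
  refine ⟨q, hq0, ?_⟩
  rw [lt_div_iff₀ (by positivity)] at hq1
  have h2 : (A : ℝ) ^ (q * M) = r ^ q * (B : ℝ) ^ (q * M) := by
    rw [hr, ← pow_mul, div_pow, mul_comm M q, div_mul_cancel₀]
    positivity
  rw [h2]
  calc (Real.exp 1 * ((q * M : ℕ) : ℝ)) ^ K * (r ^ q * (B : ℝ) ^ (q * M))
      = ((q : ℝ) ^ K * r ^ q * (Real.exp 1 * M) ^ K) * (B : ℝ) ^ (q * M) := by
        push_cast
        rw [show Real.exp 1 * ((q : ℝ) * M) = q * (Real.exp 1 * M) by ring, mul_pow]
        ring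
    _ < 1 * (B : ℝ) ^ (q * M) := mul_lt_mul_of_pos_right hq1 (by positivity)
    _ = _ := one_mul _

end XLIM

open XLIM in
theorem I_LIM : StLim := by
  intro C S k M Z α hC hM hα hsum hAB
  obtain ⟨q, hq, hlt⟩ := exists_q _ _ M ((C + S) * k) hM hAB
  refine ⟨q, hq, ?_⟩
  intro m hm
  have hm0 : 0 < m := by rw [hm]; positivity
  have hE : (0 : ℝ) < Real.exp 1 := Real.exp_pos _
  set W := C + S with hW
  set D : ℕ := ∏ s ∈ Finset.range k, ∏ t ∈ Finset.range W, m.descFactorial (q * α s t) with hD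
  set F : ℕ := ∏ s ∈ Finset.range k, ∏ t ∈ Finset.range W, (m - q * α s t) ^ (q * α s t) with hF
  set Pi : ℕ := ∏ s ∈ Finset.range k, ∏ t ∈ Finset.range W, (M - α s t) with hPi
  have hFpos : 0 < F := by
    apply Finset.prod_pos
    intro s _
    apply Finset.prod_pos
    intro t _
    apply Nat.pow_pos
    have := Nat.mul_lt_mul_of_pos_left (hα s t) hq
    omega
  have hPipos : 0 < Pi := by
    apply Finset.prod_pos
    intro s _
    apply Finset.prod_pos
    intro t _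
    have := hα s t
    omega
  -- the main inequality
  have key : (C.factorial ^ m) ^ k * D * (q ^ k * Z) ^ (m * C) < (m * C).factorial ^ k * F := by
    have h1 : (D : ℝ) * Real.exp 1 ^ (m * C * k) * (Pi : ℝ) ^ m ≤
        (Real.exp 1 * (m : ℝ)) ^ (W * k) * (M : ℝ) ^ (m * (W * k)) * (F : ℝ) := by
      have hrow : ∀ s ∈ Finset.range k,
          (∏ t ∈ Finset.range W, (m.descFactorial (q * α s t) : ℝ)) * Real.exp 1 ^ (m * C) *
            (∏ t ∈ Finset.range W, ((M - α s t : ℕ) : ℝ)) ^ m ≤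
          (Real.exp 1 * (m : ℝ)) ^ W * (M : ℝ) ^ (m * W) *
            ∏ t ∈ Finset.range W, ((m - q * α s t : ℕ) : ℝ) ^ (q * α s t) := by
        intro s hs
        have hs' := hsum s (Finset.mem_range.1 hs)
        have h0 : ∏ t ∈ Finset.range W, ((m.descFactorial (q * α s t) : ℝ) *
            Real.exp 1 ^ (q * α s t) * ((M - α s t : ℕ) : ℝ) ^ m) ≤
            ∏ t ∈ Finset.range W, ((Real.exp 1 * (m : ℝ)) * (M : ℝ) ^ m *
              ((m - q * α s t : ℕ) : ℝ) ^ (q * α s t)) := by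
          apply Finset.prod_le_prod
          · intro t _
            positivity
          · intro t _
            have := desc_le M (α s t) q (hα s t) hq
            rw [← hm] at this
            exact this
        rw [Finset.prod_mul_distrib, Finset.prod_mul_distrib, Finset.prod_mul_distrib,
          Finset.prod_const, Finset.prod_pow_eq_pow_sum, Finset.prod_pow, Finset.card_range,
          ← Finset.mul_sum, hs', mul_pow] at h0
        have e1 : q * (M * C) = m * C := by rw [hm]; ring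
        rw [e1, ← pow_mul] at h0
        exact h0
      have h2 := Finset.prod_le_prod (s := Finset.range k)
        (f := fun s => (∏ t ∈ Finset.range W, (m.descFactorial (q * α s t) : ℝ)) *
          Real.exp 1 ^ (m * C) * (∏ t ∈ Finset.range W, ((M - α s t : ℕ) : ℝ)) ^ m)
        (fun s _ => by positivity) hrow
      rw [Finset.prod_mul_distrib, Finset.prod_mul_distrib, Finset.prod_mul_distrib,
        Finset.prod_const, Finset.prod_const, Finset.prod_pow, Finset.card_range, mul_pow,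
        ← pow_mul, ← pow_mul, ← pow_mul] at h2
      rw [hD, hPi, hF]
      push_cast
      rw [mul_assoc m W k] at h2
      exact h2
    have h2 : ((m * C : ℕ) : ℝ) ^ (m * C * k) ≤
        ((m * C).factorial : ℝ) ^ k * Real.exp 1 ^ (m * C * k) := by
      have := pow_le_pow_left₀ (by positivity) (fact_ge (m * C)) k
      rw [mul_pow, ← pow_mul, ← pow_mul] at this
      exact this
    rw [← hm] at hlt
    have h3 : ((C.factorial : ℝ) ^ m) ^ k * ((q : ℝ) ^ k * Z) ^ (m * C) *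
        ((Real.exp 1 * (m : ℝ)) ^ (W * k) * (M : ℝ) ^ (m * (W * k))) <
        ((m * C : ℕ) : ℝ) ^ (m * C * k) * (Pi : ℝ) ^ m := by
      have hqM : (0 : ℝ) < ((q : ℝ) * M) ^ (m * C * k) := by positivity
      have h4 := mul_lt_mul_of_pos_left hlt hqM
      refine lt_of_eq_of_lt ?_ (lt_of_lt_of_eq h4 ?_)
      · push_cast
        rw [show m * (W * k) = m * C * k + k * S * m by rw [hW]; ring, pow_add]
        simp only [mul_pow, ← pow_mul]
        ring
      · push_cast
        rw [show ((m : ℝ) * C) = ((q : ℝ) * M) * C by rw [hm]; push_cast; ring]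
        rw [mul_pow ((q : ℝ) * M) (C : ℝ), mul_pow _ (Pi : ℝ), ← pow_mul,
          show C * k * m = m * C * k by ring]
        ring
    have hFR : (0 : ℝ) < (F : ℝ) := by exact_mod_cast hFpos
    have hPR : (0 : ℝ) < (Pi : ℝ) := by exact_mod_cast hPipos
    have hfin : (((C.factorial ^ m) ^ k * D * (q ^ k * Z) ^ (m * C) : ℕ) : ℝ) <
        (((m * C).factorial ^ k * F : ℕ) : ℝ) := by
      have hc : (0 : ℝ) < Real.exp 1 ^ (m * C * k) * (Pi : ℝ) ^ m := by positivity
      refine lt_of_mul_lt_mul_right ?_ hc.le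
      push_cast
      calc ((C.factorial : ℝ) ^ m) ^ k * (D : ℝ) * ((q : ℝ) ^ k * Z) ^ (m * C) *
            (Real.exp 1 ^ (m * C * k) * (Pi : ℝ) ^ m)
          = (((C.factorial : ℝ) ^ m) ^ k * ((q : ℝ) ^ k * Z) ^ (m * C)) *
            ((D : ℝ) * Real.exp 1 ^ (m * C * k) * (Pi : ℝ) ^ m) := by ring
        _ ≤ (((C.factorial : ℝ) ^ m) ^ k * ((q : ℝ) ^ k * Z) ^ (m * C)) *
            ((Real.exp 1 * (m : ℝ)) ^ (W * k) * (M : ℝ) ^ (m * (W * k)) * (F : ℝ)) :=
            mul_le_mul_of_nonneg_left h1 (by positivity)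
        _ = (((C.factorial : ℝ) ^ m) ^ k * ((q : ℝ) ^ k * Z) ^ (m * C) *
            ((Real.exp 1 * (m : ℝ)) ^ (W * k) * (M : ℝ) ^ (m * (W * k)))) * (F : ℝ) := by ring
        _ < (((m * C : ℕ) : ℝ) ^ (m * C * k) * (Pi : ℝ) ^ m) * (F : ℝ) :=
            mul_lt_mul_of_pos_right h3 hFR
        _ ≤ ((((m * C).factorial : ℝ) ^ k * Real.exp 1 ^ (m * C * k)) * (Pi : ℝ) ^ m) *
            (F : ℝ) := by gcongr
        _ = ((m * C).factorial : ℝ) ^ k * (F : ℝ) *
            (Real.exp 1 ^ (m * C * k) * (Pi : ℝ) ^ m) := by ring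
    exact_mod_cast hfin
  -- back to the claim
  have hL : (∏ s ∈ Finset.range k,
      ((C.factorial) ^ m * ∏ t ∈ Finset.range W, m.descFactorial (q * α s t)) ^ m) *
        (q ^ k * Z) ^ (m * (m * C)) =
      ((C.factorial ^ m) ^ k * D * (q ^ k * Z) ^ (m * C)) ^ m := by
    rw [Finset.prod_pow, Finset.prod_mul_distrib, Finset.prod_const, Finset.card_range, ← hD,
      mul_comm m (m * C), pow_mul _ (m * C) m, ← mul_pow]
  have hR : ((m * C).factorial) ^ (m * k) *
        ∏ s ∈ Finset.range k, (∏ t ∈ Finset.range W, (m - q * α s t) ^ (q * α s t)) ^ m =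
      ((m * C).factorial ^ k * F) ^ m := by
    rw [Finset.prod_pow, ← hF, mul_comm m k, pow_mul, ← mul_pow]
  rw [hL, hR]
  exact Nat.pow_lt_pow_left key hm0.ne'

end Pool.Agent.PR
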